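import Pool.Agent.N542.PT.Real

set_option autoImplicit false
set_option linter.all false
set_option maxHeartbeats 4000000

/-! # Many points of every box -/

namespace Pool.Agent.V7H14.BN

open Finset Filter Topology
open Pool.Agent.W147.PS (ff ff_compare ev_pow)
open Pool.Agent.N542.PT (WellDist Crit Good ff_scaled)

open scoped Classical

theorem prod_diff {ι : Type} (s : Finset ι) (a b : ι → ℝ) (A δ : ℝ) (hA : 1 ≤ A) (hδ : 0 ≤ δ)
    (ha : ∀ i ∈ s, |a i| ≤ A) (hb : ∀ i ∈ s, |b i| ≤ A) (hab : ∀ i ∈ s, |a i - b i| ≤ δ) :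
    |∏ i ∈ s, a i - ∏ i ∈ s, b i| ≤ s.card * A ^ (s.card - 1) * δ := by
  induction s using Finset.induction_on with
  | empty => simp
  | insert i s hi ih =>
    have h1 := ih (fun j hj => ha j (mem_insert_of_mem hj)) (fun j hj => hb j (mem_insert_of_mem hj))
      (fun j hj => hab j (mem_insert_of_mem hj))
    rw [prod_insert hi, prod_insert hi, card_insert_of_notMem hi]
    have hA0 : 0 ≤ A := by linarith
    have e1 : a i * ∏ j ∈ s, a j - b i * ∏ j ∈ s, b j =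
        (a i - b i) * ∏ j ∈ s, b j + a i * (∏ j ∈ s, a j - ∏ j ∈ s, b j) := by ring
    have h2 : |∏ j ∈ s, b j| ≤ A ^ s.card := by
      rw [abs_prod]
      refine (prod_le_prod (fun _ _ => abs_nonneg _) fun j hj => hb j (mem_insert_of_mem hj)).trans ?_
      rw [prod_const]
    rw [e1]
    refine (abs_add_le _ _).trans ?_
    rw [abs_mul, abs_mul, Nat.add_sub_cancel]
    have h3 := hab i (mem_insert_self _ _)
    have h4 := ha i (mem_insert_self _ _)
    calc |a i - b i| * |∏ j ∈ s, b j| + |a i| * |∏ j ∈ s, a j - ∏ j ∈ s, b j|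
        ≤ δ * A ^ s.card + A * (s.card * A ^ (s.card - 1) * δ) := by
          apply add_le_add
          · exact mul_le_mul h3 h2 (abs_nonneg _) hδ
          · exact mul_le_mul h4 h1 (abs_nonneg _) hA0
      _ ≤ δ * A ^ s.card + s.card * A ^ s.card * δ := by
          rcases Nat.eq_zero_or_pos s.card with h0 | h0
          · rw [h0]
            simp
          · have h5 : A ^ s.card = A * A ^ (s.card - 1) := by
              rw [← pow_succ']
              congr 1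
              omega
            rw [h5]
            apply le_of_eq
            ring
      _ = _ := by
          push_cast
          ring

theorem card_class (M ρ : ℤ) (Z q : ℕ) (hq : 1 ≤ q) :
    |(((Ioc M (M + Z)).filter (fun x => (q : ℤ) ∣ x - ρ)).card : ℝ) - (Z : ℝ) / q| ≤ 1 := by
  have hq0 : (0 : ℤ) < q := by exact_mod_cast hq
  have hqr : (0 : ℝ) < q := by exact_mod_cast hq
  have h1 := Int.Ioc_filter_modEq_card M (M + Z) hq0 ρ
  have h2 : ((Ioc M (M + Z)).filter (fun x => (q : ℤ) ∣ x - ρ)) =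
      ((Ioc M (M + Z)).filter (fun x => x ≡ ρ [ZMOD q])) := by
    apply filter_congr
    intro x _
    rw [Int.modEq_comm, Int.modEq_iff_dvd]
  rw [h2]
  have h3 : ((((Ioc M (M + Z)).filter (fun x => x ≡ ρ [ZMOD q])).card : ℤ) : ℝ) =
      max ((⌊(((M + Z : ℤ) - ρ : ℤ) : ℚ) / (q : ℤ)⌋ - ⌊((M - ρ : ℤ) : ℚ) / (q : ℤ)⌋ : ℤ) : ℝ) 0 := by
    rw [h1]
    push_cast
    rfl
  rw [Int.cast_natCast] at h3
  rw [h3]
  have e : ∀ a : ℤ, ((⌊((a : ℤ) : ℚ) / ((q : ℤ) : ℚ)⌋ : ℤ) : ℝ) ≤ (a : ℝ) / q ∧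
      (a : ℝ) / q - 1 < ((⌊((a : ℤ) : ℚ) / ((q : ℤ) : ℚ)⌋ : ℤ) : ℝ) := by
    intro a
    have g1 := Int.floor_le (((a : ℤ) : ℚ) / ((q : ℤ) : ℚ))
    have g2 := Int.sub_one_lt_floor (((a : ℤ) : ℚ) / ((q : ℤ) : ℚ))
    constructor
    · have : ((⌊((a : ℤ) : ℚ) / ((q : ℤ) : ℚ)⌋ : ℚ) : ℝ) ≤ ((((a : ℤ) : ℚ) / ((q : ℤ) : ℚ) : ℚ) : ℝ) := by
        exact_mod_cast g1
      push_cast at this
      exact this
    · have : (((((a : ℤ) : ℚ) / ((q : ℤ) : ℚ) - 1 : ℚ)) : ℝ) < ((⌊((a : ℤ) : ℚ) / ((q : ℤ) : ℚ)⌋ : ℚ) : ℝ) := by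
        exact_mod_cast g2
      push_cast at this
      exact this
  obtain ⟨a1, a2⟩ := e ((M + Z : ℤ) - ρ)
  obtain ⟨b1, b2⟩ := e (M - ρ)
  have e3 : (((M + Z : ℤ) - ρ : ℤ) : ℝ) / q = ((M - ρ : ℤ) : ℝ) / q + (Z : ℝ) / q := by
    push_cast
    ring
  rw [e3] at a1 a2
  have hZ : (0 : ℝ) ≤ (Z : ℝ) / q := by positivity
  push_cast at a1 a2 b1 b2 ⊢
  rw [abs_le]
  constructor
  · refine le_trans ?_ (sub_le_sub_right (le_max_left _ _) _)
    linarith
  · rw [sub_le_iff_le_add]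
    apply max_le
    · linarith
    · linarith

/-- the box -/
noncomputable def box {n : ℕ} (M : Fin n → ℤ) (Z : ℕ) : Finset (Fin n → ℤ) :=
  Fintype.piFinset fun i => Ioc (M i) (M i + Z)

theorem box_card {n : ℕ} (M : Fin n → ℤ) (Z : ℕ) : ((box M Z).card : ℝ) = (Z : ℝ) ^ n := by
  unfold box
  rw [Fintype.card_piFinset]
  simp

theorem box_class {n : ℕ} (M ρ : Fin n → ℤ) (Z q : ℕ) (hq : 1 ≤ q) (hZ : 1 ≤ Z) :
    |(((box M Z).filter (fun x => ∀ j, (q : ℤ) ∣ x j - ρ j)).card : ℝ) - (Z : ℝ) ^ n / (q : ℝ) ^ n| ≤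
      n * (2 * (Z : ℝ)) ^ (n - 1) := by
  have hqr : (1 : ℝ) ≤ q := by exact_mod_cast hq
  have hZr : (1 : ℝ) ≤ Z := by exact_mod_cast hZ
  have h1 : (box M Z).filter (fun x => ∀ j, (q : ℤ) ∣ x j - ρ j) =
      Fintype.piFinset fun i => (Ioc (M i) (M i + Z)).filter (fun x => (q : ℤ) ∣ x - ρ i) := by
    ext x
    simp only [box, Finset.mem_filter, Fintype.mem_piFinset]
    exact ⟨fun h i => ⟨h.1 i, h.2 i⟩, fun h => ⟨fun i => (h i).1, fun i => (h i).2⟩⟩
  rw [h1, Fintype.card_piFinset]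
  push_cast
  have h2 : (Z : ℝ) ^ n / (q : ℝ) ^ n = ∏ _i : Fin n, (Z : ℝ) / q := by
    rw [prod_const, card_univ, Fintype.card_fin, div_pow]
  have h3 : (Z : ℝ) / q ≤ Z := div_le_self (by linarith) hqr
  have h30 : (0 : ℝ) ≤ (Z : ℝ) / q := by positivity
  rw [h2]
  have h4 := prod_diff (univ : Finset (Fin n))
    (fun i => (((Ioc (M i) (M i + Z)).filter (fun x => (q : ℤ) ∣ x - ρ i)).card : ℝ)) (fun _ => (Z : ℝ) / q)
    (2 * Z) 1 (by linarith) zero_le_one (fun i _ => by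
      have h5 := abs_le.1 (card_class (M i) (ρ i) Z q hq)
      rw [abs_of_nonneg (Nat.cast_nonneg _)]
      linarith [h5.2]) (fun i _ => by
      rw [abs_of_nonneg h30]
      linarith) (fun i _ => card_class (M i) (ρ i) Z q hq)
  rw [card_univ, Fintype.card_fin, mul_one] at h4
  exact h4

variable {ι : Type}

/-- **many points of every box** -/
theorem many_box (n : ℕ) (hn : 1 ≤ n) (F : ι → MvPolynomial (Fin n) ℤ) (hF : Crit n F) (ε : ℝ)
    (hε : 0 < ε) (hε1 : ε ≤ 1) :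
    ∃ κ : ℝ, 0 < κ ∧ ∃ Z₀ : ℝ, ∀ Z : ℕ, Z₀ ≤ Z → ∀ M : Fin n → ℤ, ∃ G : Finset (Fin n → ℤ),
      (Z : ℝ) ^ ((n : ℝ) - ε) ≤ (G.card : ℝ) ∧ ∀ x ∈ G, (∀ i, M i < x i ∧ x i ≤ M i + Z) ∧
        Good F (κ * ff Z) ((Z : ℝ) ^ ε) x := by
  obtain ⟨κ, hκ, X₀, hc⟩ := hF
  have hn1 : (1 : ℝ) ≤ n := by exact_mod_cast hn
  obtain ⟨η, hη⟩ : ∃ η : ℝ, η = ε / 2 := ⟨_, rfl⟩
  have hη0 : 0 < η := by rw [hη]; positivity
  obtain ⟨θ, hθ⟩ : ∃ θ : ℝ, θ = η / (2 * ((n : ℝ) + 1)) := ⟨_, rfl⟩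
  have hθ0 : 0 < θ := by rw [hθ]; positivity
  have hθn : θ * ((n : ℝ) + 1) = η / 2 := by rw [hθ]; field_simp
  have hθη : θ ≤ η / 2 := by nlinarith
  have hθ1 : θ ≤ 1 := by linarith
  refine ⟨κ * (θ / 32), by positivity, ?_⟩
  have hev : ∀ᶠ Z : ℝ in atTop, ∀ M : Fin n → ℤ, ∀ Zn : ℕ, Z = Zn → ∃ G : Finset (Fin n → ℤ),
      (Z : ℝ) ^ ((n : ℝ) - ε) ≤ (G.card : ℝ) ∧ ∀ x ∈ G, (∀ i, M i < x i ∧ x i ≤ M i + Zn) ∧
        Good F (κ * (θ / 32) * ff Z) (Z ^ ε) x := by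
    filter_upwards [ff_compare θ hθ0 hθ1, (tendsto_rpow_atTop hθ0).eventually_ge_atTop X₀,
      eventually_ge_atTop (1 : ℝ), ev_pow (-ε) (-η) 1 (by linarith), ev_pow (-η) (-(η / 2)) 8 (by linarith),
      ev_pow (-η) 0 4 (by linarith), ev_pow (-1) (-η) (n * 2 ^ (n - 1)) (by linarith)]
      with Z hM hMX hZ1 hp1 hp2 hp3 hp4
    rw [Real.rpow_zero] at hp3
    intro M Zn hZn
    have hZ0 : 0 < Z := by linarith
    have hZn1 : 1 ≤ Zn := by
      have : (1 : ℝ) ≤ Zn := by rw [← hZn]; exact hZ1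
      exact_mod_cast this
    have hmono : ∀ x y : ℝ, x ≤ y → Z ^ x ≤ Z ^ y := fun x y h => Real.rpow_le_rpow_of_exponent_le hZ1 h
    obtain ⟨S, hS⟩ : ∃ S : Finset (Fin n → ℤ), S = box M Zn := ⟨_, rfl⟩
    have hScard : (S.card : ℝ) = Z ^ n := by rw [hS, box_card, hZn]
    have hSpos : (0 : ℝ) < S.card := by rw [hScard]; positivity
    obtain ⟨G, hG⟩ : ∃ G : Finset (Fin n → ℤ),
      G = S.filter (fun x => Good F (κ * (θ / 32) * ff Z) (Z ^ ε) x) := ⟨_, rfl⟩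
    have hGs : G ⊆ S := by rw [hG]; exact filter_subset _ _
    refine ⟨G, ?_, ?_⟩
    · by_contra hlt
      rw [not_le] at hlt
      have e1 : Z ^ ((n : ℝ) - ε) = Z ^ n * Z ^ (-ε) := by
        rw [sub_eq_add_neg, Real.rpow_add hZ0, Real.rpow_natCast]
      rw [e1, ← hScard] at hlt
      have hGη : (G.card : ℝ) ≤ S.card * Z ^ (-η) := by
        refine hlt.le.trans ?_
        apply mul_le_mul_of_nonneg_left _ hSpos.le
        linarith
      obtain ⟨t, ht⟩ : ∃ t : Finset (Fin n → ℤ), t = S \ G := ⟨_, rfl⟩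
      have htcard : (t.card : ℝ) = S.card - G.card := by
        rw [ht, card_sdiff_of_subset hGs, Nat.cast_sub (card_le_card hGs)]
      have htbig : 3 / 4 * (S.card : ℝ) ≤ t.card := by
        rw [htcard]
        nlinarith
      obtain ⟨x, hx, hx2⟩ := hc (Z ^ θ) hMX (Fin n → ℤ) t (fun x => x) (by
          rw [← Finset.card_pos]
          have : (0 : ℝ) < t.card := by linarith
          exact_mod_cast this) (by
        intro q hq hqZ ρ
        have hq1 : (1 : ℝ) ≤ q := by exact_mod_cast hq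
        have hqn : (1 : ℝ) ≤ (q : ℝ) ^ n := one_le_pow₀ hq1
        have g1 := box_class M ρ Zn q hq hZn1
        rw [← hS, ← hZn, ← hScard] at g1
        have e2 : (t.filter (fun x => ∀ j, (q : ℤ) ∣ x j - ρ j)).card =
            (S.filter (fun x => ∀ j, (q : ℤ) ∣ x j - ρ j)).card -
            (G.filter (fun x => ∀ j, (q : ℤ) ∣ x j - ρ j)).card := by
          have : t.filter (fun x => ∀ j, (q : ℤ) ∣ x j - ρ j) =
            (S.filter (fun x => ∀ j, (q : ℤ) ∣ x j - ρ j)) \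
            (G.filter (fun x => ∀ j, (q : ℤ) ∣ x j - ρ j)) := by
            ext x
            simp only [ht, Finset.mem_filter, Finset.mem_sdiff]
            tauto
          rw [this, card_sdiff_of_subset (filter_subset_filter _ hGs)]
        have e3 : ((t.filter (fun x => ∀ j, (q : ℤ) ∣ x j - ρ j)).card : ℝ) =
            (S.filter (fun x => ∀ j, (q : ℤ) ∣ x j - ρ j)).card -
            (G.filter (fun x => ∀ j, (q : ℤ) ∣ x j - ρ j)).card := by
          rw [e2, Nat.cast_sub (card_le_card (filter_subset_filter _ hGs))]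
        have hGc : ((G.filter (fun x => ∀ j, (q : ℤ) ∣ x j - ρ j)).card : ℝ) ≤ G.card := by
          exact_mod_cast Finset.card_filter_le _ _
        have hG0 : (0 : ℝ) ≤ ((G.filter (fun x => ∀ j, (q : ℤ) ∣ x j - ρ j)).card : ℝ) := Nat.cast_nonneg _
        have hGq : (G.card : ℝ) / (q : ℝ) ^ n ≤ G.card := div_le_self (Nat.cast_nonneg _) hqn
        have hGq0 : (0 : ℝ) ≤ (G.card : ℝ) / (q : ℝ) ^ n := by positivity
        have hbox : (n : ℝ) * (2 * Z) ^ (n - 1) ≤ S.card * Z ^ (-η) := by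
          have e4 : (2 * Z) ^ (n - 1) = 2 ^ (n - 1) * (Z ^ n * Z ^ (-1 : ℝ)) := by
            rw [mul_pow]
            congr 1
            rw [Real.rpow_neg_one, ← div_eq_mul_inv, eq_div_iff hZ0.ne', ← pow_succ]
            congr 1
            omega
          rw [e4, hScard]
          calc (n : ℝ) * (2 ^ (n - 1) * (Z ^ n * Z ^ (-1 : ℝ))) = Z ^ n * (n * 2 ^ (n - 1) * Z ^ (-1 : ℝ)) := by
                ring
            _ ≤ Z ^ n * Z ^ (-η) := mul_le_mul_of_nonneg_left hp4 (by positivity)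
        have hfin : 3 * (S.card * Z ^ (-η)) ≤ t.card * (Z ^ θ) ^ (-((n : ℝ) + 1)) := by
          have e5 : (Z ^ θ) ^ (-((n : ℝ) + 1)) = Z ^ (-(η / 2)) := by
            rw [← Real.rpow_mul hZ0.le]
            congr 1
            linarith
          rw [e5]
          have h7 : 0 < Z ^ (-(η / 2)) := Real.rpow_pos_of_pos hZ0 _
          have h8 : S.card * (8 * Z ^ (-η)) ≤ S.card * Z ^ (-(η / 2)) := mul_le_mul_of_nonneg_left hp2 hSpos.le
          have h9 : 3 / 4 * (S.card : ℝ) * Z ^ (-(η / 2)) ≤ t.card * Z ^ (-(η / 2)) :=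
            mul_le_mul_of_nonneg_right htbig h7.le
          have h10 : 0 ≤ S.card * Z ^ (-η) := by positivity
          linarith
        refine le_trans ?_ hfin
        rw [e3, htcard, sub_div]
        have g1' := abs_le.1 g1
        rw [abs_le]
        constructor
        · linarith [g1'.1, g1'.2]
        · linarith [g1'.1, g1'.2])
      rw [ht] at hx
      have hx3 := Finset.mem_sdiff.mp hx
      apply hx3.2
      rw [hG, Finset.mem_filter]
      refine ⟨hx3.1, fun j k hk => ?_⟩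
      obtain ⟨p, hp, hp1, hp2⟩ := hx2 j k (hk.trans (ff_scaled κ θ Z hκ hθ1 hZ1 hM.2))
      refine ⟨p, hp, hp1.trans ?_, hp2⟩
      rw [← Real.rpow_mul hZ0.le]
      apply hmono
      linarith
    · intro x hx
      rw [hG, Finset.mem_filter, hS] at hx
      refine ⟨fun i => ?_, hx.2⟩
      have := hx.1
      rw [box, Fintype.mem_piFinset] at this
      exact Finset.mem_Ioc.1 (this i)
  obtain ⟨Z₀, hZ₀⟩ := eventually_atTop.1 hev
  exact ⟨Z₀, fun Z hZ M => hZ₀ Z hZ M Z rfl⟩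

end Pool.Agent.V7H14.BN
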