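import Pool.Agent.V7H14.BN.Count
import Pool.Agent.V7H14.BP.GenA
import Pool.Agent.N542.PT.Real

set_option autoImplicit false
set_option linter.all false

/-! # The record criterion for noncomposite polynomials in several variables -/

open Polynomial

namespace Pool.Agent.V7H14.BN

open Pool.Agent.R410.LW (ev ev_C ev_X ev_eq)
open Pool.Agent.V7H14.GF (not_dvd_large)

theorem sum_est {Z0 : Type} [Fintype Z0] (f : Z0 → ℕ) (bad : Finset Z0) (p W δ d P : ℝ) (hp : 1 ≤ p) (hW : 0 ≤ W)
    (hδ : 0 ≤ δ) (hd : 0 ≤ d) (hP : 0 ≤ P) (hcard : (Fintype.card Z0 : ℝ) = P) (hbad : (bad.card : ℝ) * p ≤ δ * P)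
    (h1 : ∀ z, z ∉ bad → |(f z : ℝ) - p| ≤ W * √p) (h2 : ∀ z, (f z : ℝ) ≤ p * d) :
    |((∑ z, f z : ℕ) : ℝ) - P * p| ≤ (W + δ * (d + 1)) * (P * √p) := by
  classical
  have hs1 : 1 ≤ √p := by
    rw [Real.one_le_sqrt]
    exact hp
  have e1 : ((∑ z, f z : ℕ) : ℝ) - P * p = ∑ z, ((f z : ℝ) - p) := by
    push_cast
    rw [Finset.sum_sub_distrib, Finset.sum_const, Finset.card_univ, nsmul_eq_mul, hcard]
  have e2 : ∀ z, |(f z : ℝ) - p| ≤ W * √p + (if z ∈ bad then p * (d + 1) else 0) := by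
    intro z
    by_cases hz : z ∈ bad
    · rw [if_pos hz]
      have h3 := h2 z
      have h4 : (0 : ℝ) ≤ f z := Nat.cast_nonneg _
      have h5 : 0 ≤ W * √p := by positivity
      have h6 : 0 ≤ p * d := by positivity
      rw [abs_le]
      constructor <;> nlinarith
    · rw [if_neg hz, add_zero]
      exact h1 z hz
  rw [e1]
  refine (Finset.abs_sum_le_sum_abs _ _).trans ((Finset.sum_le_sum fun z _ => e2 z).trans ?_)
  rw [Finset.sum_add_distrib, Finset.sum_const, Finset.card_univ, nsmul_eq_mul, hcard, ← Finset.sum_filter,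
    Finset.sum_const, nsmul_eq_mul]
  have e3 : (Finset.univ.filter (fun z => z ∈ bad)) = bad := by
    ext z
    simp
  rw [e3]
  have e4 : (bad.card : ℝ) * (p * (d + 1)) ≤ δ * P * (d + 1) := by
    calc (bad.card : ℝ) * (p * (d + 1)) = (bad.card * p) * (d + 1) := by ring
      _ ≤ _ := mul_le_mul_of_nonneg_right hbad (by positivity)
  have e5 : δ * P * (d + 1) ≤ δ * (d + 1) * (P * √p) := by
    calc δ * P * (d + 1) = δ * (d + 1) * (P * 1) := by ring
      _ ≤ _ := by gcongr
  calc P * (W * √p) + (bad.card : ℝ) * (p * (d + 1)) ≤ P * (W * √p) + δ * (d + 1) * (P * √p) := by linarith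
    _ = _ := by ring

theorem sum_pair {Z0 : Type} [Fintype Z0] (f : Z0 → ℕ) (bad : Finset Z0) (p C₁ δ d P : ℝ) (hp : 1 ≤ p) (hC : 0 ≤ C₁)
    (hδ : 0 ≤ δ) (hd : 0 ≤ d) (hP : 0 ≤ P) (hcard : (Fintype.card Z0 : ℝ) = P) (hbad : (bad.card : ℝ) * p ≤ δ * P)
    (h1 : ∀ z, z ∉ bad → (f z : ℝ) ≤ C₁) (h2 : ∀ z, (f z : ℝ) ≤ p * d) :
    ((∑ z, f z : ℕ) : ℝ) ≤ (C₁ + δ * d) * P := by
  classical
  have e2 : ∀ z, (f z : ℝ) ≤ C₁ + (if z ∈ bad then p * d else 0) := by
    intro z
    by_cases hz : z ∈ bad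
    · rw [if_pos hz]
      linarith [h2 z]
    · rw [if_neg hz, add_zero]
      exact h1 z hz
  push_cast
  refine (Finset.sum_le_sum fun z _ => e2 z).trans ?_
  rw [Finset.sum_add_distrib, Finset.sum_const, Finset.card_univ, nsmul_eq_mul, hcard, ← Finset.sum_filter,
    Finset.sum_const, nsmul_eq_mul]
  have e3 : (Finset.univ.filter (fun z => z ∈ bad)) = bad := by
    ext z
    simp
  rw [e3]
  have e4 : (bad.card : ℝ) * (p * d) ≤ δ * P * d := by
    calc (bad.card : ℝ) * (p * d) = (bad.card * p) * d := by ring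
      _ ≤ _ := mul_le_mul_of_nonneg_right hbad hd
  nlinarith

theorem map_ne_zero_large {m : ℕ} (e : MvPolynomial (Fin m) ℤ) (he : e ≠ 0) : ∃ B : ℕ, ∀ (p : ℕ) [Fact p.Prime],
    B < p → MvPolynomial.map (Int.castRingHom (ZMod p)) e ≠ 0 := by
  obtain ⟨β, hβ⟩ : ∃ β, MvPolynomial.coeff β e ≠ 0 := by
    by_contra hcon
    push Not at hcon
    exact he (MvPolynomial.ext _ _ (by simpa using hcon))
  refine ⟨(MvPolynomial.coeff β e).natAbs, fun p _ hp h0 => ?_⟩
  have h1 := congrArg (MvPolynomial.coeff β) h0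
  rw [MvPolynomial.coeff_map, MvPolynomial.coeff_zero] at h1
  exact not_dvd_large hβ hp h1

theorem bound_all {ι : Type} [Fintype ι] (f : ι → ℕ) (i : ι) : f i ≤ ∑ i, f i :=
  Finset.single_le_sum (f := f) (fun _ _ => Nat.zero_le _) (Finset.mem_univ i)

/-- **the number of solutions modulo the large primes** -/
theorem counts_n {m : ℕ} {ι : Type} [Fintype ι] (F : ι → MvPolynomial (Fin (m + 2)) ℤ)
    (hF : ∀ j, ∃ c₀ : ℂ, Irreducible (MvPolynomial.map (Int.castRingHom ℂ) (F j) - MvPolynomial.C c₀))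
    (hind : ∀ i j, i ≠ j → ∀ a b c : ℤ, MvPolynomial.C a * F i + MvPolynomial.C b * F j =
      MvPolynomial.C c → a = 0 ∧ b = 0) :
    (∀ j, ∀ c : ℤ, F j ≠ MvPolynomial.C c) ∧ ∃ (μ : ι → ℤ[X]), (∀ j, μ j ≠ 0) ∧ ∃ (B₀ : ℕ) (C : ℝ),
    (∀ p : ℕ, p.Prime → B₀ < p → ∀ j, ∀ r : ZMod p, Polynomial.aeval r (μ j) ≠ 0 →
      |(p : ℝ) * (Nat.card {x : Fin (m + 2) → ZMod p // MvPolynomial.aeval x (F j) = r} : ℝ) - (p : ℝ) ^ (m + 2)| ≤
        C * (p : ℝ) ^ (m + 2) * (p : ℝ) ^ (-(1 / 2) : ℝ)) ∧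
    (∀ p : ℕ, p.Prime → B₀ < p → ∀ i j, i ≠ j → ∀ r s : ZMod p, Polynomial.aeval r (μ i) ≠ 0 →
      Polynomial.aeval s (μ j) ≠ 0 →
      (p : ℝ) ^ 2 * (Nat.card {x : Fin (m + 2) → ZMod p // MvPolynomial.aeval x (F i) = r ∧
        MvPolynomial.aeval x (F j) = s} : ℝ) ≤ C * (p : ℝ) ^ (m + 2)) := by
  classical
  have htd : ∀ j, 0 < (F j).totalDegree := fun j => by
    obtain ⟨c₀, h⟩ := hF j
    exact td_pos h
  have hF0 : ∀ j, F j ≠ 0 := by
    intro j h
    have := htd j
    rw [h, MvPolynomial.totalDegree_zero] at this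
    exact lt_irrefl _ this
  obtain ⟨w, hw, hc⟩ := exists_w F hF0
  have hHne : ∀ k : ι × ι, k.1 ≠ k.2 → ∀ c : ℤ, MvPolynomial.C (tc w (F k.2)) * F k.1 -
      MvPolynomial.C (tc w (F k.1)) * F k.2 ≠ MvPolynomial.C c := by
    intro k hk c h
    have := hind k.1 k.2 hk (tc w (F k.2)) (-tc w (F k.1)) c (by
      rw [← h, map_neg]
      ring)
    exact hc _ this.1
  have hE : ∀ k : ι × ι, ∃ E : R2 m, E ≠ 0 ∧ (k.1 ≠ k.2 → ∃ a b : ℕ, (a, b) ≠ (0, 0) ∧
      E = ((gen w (MvPolynomial.C (tc w (F k.2)) * F k.1 -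
        MvPolynomial.C (tc w (F k.1)) * F k.2)).coeff b).coeff a) := by
    intro k
    by_cases hk : k.1 = k.2
    · exact ⟨1, one_ne_zero, fun h => absurd hk h⟩
    · obtain ⟨a, b, hab, hne⟩ := gen_nonconst w hw _ (hHne k hk)
      exact ⟨_, hne, fun _ => ⟨a, b, hab, rfl⟩⟩
  choose E hE0 hEab using hE
  obtain ⟨v, hv, B, hpl⟩ := planes F hF w hw hc E hE0
  choose μ hμ W δ hW hpl using hpl
  choose BE hBE using fun k => map_ne_zero_large _ (hv k)
  choose dd hdd using fun j => gen_deg w (F j)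
  obtain ⟨B₀, hB₀⟩ : ∃ B₀ : ℕ, B₀ = B + ∑ k, BE k + (w 0).natAbs + ∑ j, (tc w (F j)).natAbs := ⟨_, rfl⟩
  obtain ⟨δE, hδE⟩ : ∃ δE : ℕ, δE = ∑ k, (MvPolynomial.eval (fun i => (v i : MV m ℤ)) (E k)).totalDegree := ⟨_, rfl⟩
  obtain ⟨Δ, hΔ⟩ : ∃ Δ : ℕ, Δ = ∑ j, δ j + ∑ j, δ j + δE := ⟨_, rfl⟩
  obtain ⟨d, hd⟩ : ∃ d : ℕ, d = ∑ j, (F j).totalDegree := ⟨_, rfl⟩
  obtain ⟨D2, hD2⟩ : ∃ D2 : ℕ, D2 = ∑ j, dd j := ⟨_, rfl⟩
  obtain ⟨W₁, hW₁⟩ : ∃ W₁ : ℝ, W₁ = ∑ j, W j := ⟨_, rfl⟩
  have hWj : ∀ j, W j ≤ W₁ := fun j => by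
    rw [hW₁]
    exact Finset.single_le_sum (f := W) (fun j _ => hW j) (Finset.mem_univ j)
  have hW₁0 : 0 ≤ W₁ := by
    rw [hW₁]
    exact Finset.sum_nonneg fun j _ => hW j
  have hdj : ∀ j, (F j).totalDegree ≤ d := fun j => by
    rw [hd]
    exact bound_all (fun j => (F j).totalDegree) j
  obtain ⟨C₁, hC₁⟩ : ∃ C₁ : ℝ, C₁ = W₁ + Δ * ((d : ℝ) + 1) + ((d + d) * D2 * d + Δ * d : ℝ) := ⟨_, rfl⟩
  have hmain : ∀ p : ℕ, p.Prime → B₀ < p → ∃ _ : Fact p.Prime, ((w 0 : ℤ) : ZMod p) ≠ 0 ∧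
      (∀ j, ((tc w (F j) : ℤ) : ZMod p) ≠ 0) ∧ B < p ∧ ∀ k, BE k < p := by
    intro p hp hBp
    have hb1 := fun k => bound_all BE k
    have hb2 := fun j => bound_all (fun j => (tc w (F j)).natAbs) j
    have : Fact p.Prime := ⟨hp⟩
    refine ⟨⟨hp⟩, not_dvd_large hw (by omega), fun j => not_dvd_large (hc j) ?_, by omega, fun k => ?_⟩
    · have := hb2 j
      omega
    · have := hb1 k
      omega
  refine ⟨?_, μ, hμ, B₀, C₁, ?_, ?_⟩
  · intro j c hc
    have := htd j
    rw [hc, MvPolynomial.totalDegree_C] at this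
    exact lt_irrefl _ this
  · intro p hp hBp j r hr
    obtain ⟨hfact, hwp, hcp, hBp', -⟩ := hmain p hp hBp
    obtain ⟨P, hP, hPd, hPz⟩ := hpl j p hBp' r hr
    have hp1 : (1 : ℝ) ≤ p := by exact_mod_cast hp.one_lt.le
    have hp0 : (0 : ℝ) < p := by linarith
    have hcnt := card_planes (K := ZMod p) w hwp (fun i => ((v i : ℤ) : ZMod p))
      (fun x => MvPolynomial.aeval x (F j) = r)
    have hbad := bad_planes P hP
    rw [ZMod.card] at hbad
    have h1 := sum_est (fun z : Fin m → ZMod p => Nat.card {y : ZMod p × ZMod p //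
      MvPolynomial.aeval (pt w (fun i => ((v i : ℤ) : ZMod p)) z y) (F j) = r})
      (Finset.univ.filter (fun z => MvPolynomial.eval z P = 0)) p (W j) Δ d ((p : ℝ) ^ m) hp1 (hW j)
      (Nat.cast_nonneg _) (Nat.cast_nonneg _) (by positivity) (by
        rw [Fintype.card_pi_const, ZMod.card]
        push_cast
        rfl) (hbad.trans (by
        apply mul_le_mul_of_nonneg_right _ (by positivity)
        have h2 := bound_all δ j
        have h3 : P.totalDegree ≤ Δ := by omega
        exact_mod_cast h3)) (by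
        intro z hz
        rw [Finset.mem_filter, not_and] at hz
        have h2 := (hPz z (hz (Finset.mem_univ z))).2
        refine le_trans (le_of_eq ?_) h2
        congr 3
        norm_cast
        refine Nat.card_congr (Equiv.subtypeEquivRight fun y => ?_)
        rw [map_sub, th_pt, ev_C, eval₂_C, RingHom.id_apply, sub_eq_zero]) (by
        intro z
        have h2 := plane_le (K := ZMod p) w (aa (fun i => ((v i : ℤ) : ZMod p)) z) (F j) (htd j) (hcp j) r
        rw [Nat.card_zmod] at h2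
        have h3 : Nat.card {y : ZMod p × ZMod p //
            MvPolynomial.aeval (pt w (fun i => ((v i : ℤ) : ZMod p)) z y) (F j) = r} ≤ p * d := by
          refine le_trans (le_of_eq ?_) (h2.trans (Nat.mul_le_mul_left _ (hdj j)))
          refine Nat.card_congr (Equiv.subtypeEquivRight fun y => ?_)
          rw [map_sub, th_pt, ev_C, eval₂_C, RingHom.id_apply, sub_eq_zero]
        exact_mod_cast h3)
    rw [← hcnt] at h1
    have e2 : (p : ℝ) ^ (m + 2) * (p : ℝ) ^ (-(1 / 2) : ℝ) = p * ((p : ℝ) ^ m * √(p : ℝ)) := by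
      rw [Real.rpow_neg hp0.le, ← Real.sqrt_eq_rpow]
      have h2 : √(p : ℝ) ≠ 0 := (Real.sqrt_pos.2 hp0).ne'
      field_simp
      rw [Real.sq_sqrt hp0.le]
      ring
    have e1 : (p : ℝ) * (Nat.card {x : Fin (m + 2) → ZMod p // MvPolynomial.aeval x (F j) = r} : ℝ) -
        (p : ℝ) ^ (m + 2) = p * ((Nat.card {x : Fin (m + 2) → ZMod p // MvPolynomial.aeval x (F j) = r} : ℝ) -
        (p : ℝ) ^ m * p) := by
      ring
    rw [e1, abs_mul, abs_of_pos hp0, mul_assoc, e2, ← mul_assoc, mul_comm C₁, mul_assoc]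
    apply mul_le_mul_of_nonneg_left _ hp0.le
    refine h1.trans ?_
    apply mul_le_mul_of_nonneg_right _ (by positivity)
    rw [hC₁]
    have := hWj j
    have h5 : (0 : ℝ) ≤ (d + d) * D2 * d + Δ * d := by positivity
    linarith
  · intro p hp hBp i j hij r s hr hs
    obtain ⟨hfact, hwp, hcp, hBp', hBEp⟩ := hmain p hp hBp
    obtain ⟨P, hP, hPd, hPz⟩ := hpl i p hBp' r hr
    obtain ⟨Q, hQ, hQd, hQz⟩ := hpl j p hBp' s hs
    have hp1 : (1 : ℝ) ≤ p := by exact_mod_cast hp.one_lt.le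
    have hp0 : (0 : ℝ) < p := by linarith
    have hEp := hBE (i, j) p (hBEp (i, j))
    obtain ⟨S, hS⟩ : ∃ S : MvPolynomial (Fin m) (ZMod p), S = MvPolynomial.map (Int.castRingHom (ZMod p))
      (MvPolynomial.eval (fun i => (v i : MV m ℤ)) (E (i, j))) := ⟨_, rfl⟩
    rw [← hS] at hEp
    have hSd : S.totalDegree ≤ δE := by
      have h1 : S.totalDegree ≤ (MvPolynomial.eval (fun i => (v i : MV m ℤ)) (E (i, j))).totalDegree := by
        rw [hS]
        exact Finset.sup_mono (MvPolynomial.support_map_subset _ _)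
      refine h1.trans ?_
      rw [hδE]
      exact bound_all (fun k => (MvPolynomial.eval (fun i => (v i : MV m ℤ)) (E k)).totalDegree) (i, j)
    have hcnt := card_planes (K := ZMod p) w hwp (fun i => ((v i : ℤ) : ZMod p))
      (fun x => MvPolynomial.aeval x (F i) = r ∧ MvPolynomial.aeval x (F j) = s)
    have hb1 := bad_planes P hP
    have hb2 := bad_planes Q hQ
    have hb3 := bad_planes S hEp
    rw [ZMod.card] at hb1 hb2 hb3
    have h1 := sum_pair (fun z : Fin m → ZMod p => Nat.card {y : ZMod p × ZMod p //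
      MvPolynomial.aeval (pt w (fun i => ((v i : ℤ) : ZMod p)) z y) (F i) = r ∧
      MvPolynomial.aeval (pt w (fun i => ((v i : ℤ) : ZMod p)) z y) (F j) = s})
      (Finset.univ.filter (fun z => MvPolynomial.eval z P = 0) ∪
        Finset.univ.filter (fun z => MvPolynomial.eval z Q = 0) ∪
        Finset.univ.filter (fun z => MvPolynomial.eval z S = 0)) p ((d + d) * D2 * d) Δ d ((p : ℝ) ^ m) hp1
      (by positivity) (Nat.cast_nonneg _) (Nat.cast_nonneg _) (by positivity) (by
        rw [Fintype.card_pi_const, ZMod.card]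
        push_cast
        rfl) (by
        have h2 := Finset.card_union_le (Finset.univ.filter (fun z : Fin m → ZMod p => MvPolynomial.eval z P = 0) ∪
          Finset.univ.filter (fun z => MvPolynomial.eval z Q = 0))
          (Finset.univ.filter (fun z => MvPolynomial.eval z S = 0))
        have h3 := Finset.card_union_le (Finset.univ.filter (fun z : Fin m → ZMod p => MvPolynomial.eval z P = 0))
          (Finset.univ.filter (fun z => MvPolynomial.eval z Q = 0))
        have h4 := h2.trans (Nat.add_le_add_right h3 _)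
        have h5 := bound_all δ i
        have h6 := bound_all δ j
        have h7 : P.totalDegree + Q.totalDegree + S.totalDegree ≤ Δ := by omega
        have h8 : ((P.totalDegree : ℝ) + Q.totalDegree + S.totalDegree) ≤ Δ := by exact_mod_cast h7
        have h9 : ((Finset.univ.filter (fun z : Fin m → ZMod p => MvPolynomial.eval z P = 0) ∪
          Finset.univ.filter (fun z => MvPolynomial.eval z Q = 0) ∪
          Finset.univ.filter (fun z => MvPolynomial.eval z S = 0)).card : ℝ) ≤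
          (Finset.univ.filter (fun z : Fin m → ZMod p => MvPolynomial.eval z P = 0)).card +
          (Finset.univ.filter (fun z : Fin m → ZMod p => MvPolynomial.eval z Q = 0)).card +
          (Finset.univ.filter (fun z : Fin m → ZMod p => MvPolynomial.eval z S = 0)).card := by exact_mod_cast h4
        have hpm : (0 : ℝ) ≤ (p : ℝ) ^ m := by positivity
        calc _ ≤ ((Finset.univ.filter (fun z : Fin m → ZMod p => MvPolynomial.eval z P = 0)).card +
            (Finset.univ.filter (fun z : Fin m → ZMod p => MvPolynomial.eval z Q = 0)).card +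
            (Finset.univ.filter (fun z : Fin m → ZMod p => MvPolynomial.eval z S = 0)).card : ℝ) * p :=
              mul_le_mul_of_nonneg_right h9 hp0.le
          _ ≤ ((P.totalDegree : ℝ) + Q.totalDegree + S.totalDegree) * (p : ℝ) ^ m := by nlinarith
          _ ≤ _ := mul_le_mul_of_nonneg_right h8 hpm) (by
        intro z hz
        rw [Finset.mem_union, Finset.mem_union, Finset.mem_filter, Finset.mem_filter, Finset.mem_filter] at hz
        push Not at hz
        obtain ⟨⟨hz1, hz2⟩, hz3⟩ := hz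
        have g1 := (hPz z (hz1 (Finset.mem_univ z))).1
        have g2 := (hQz z (hz2 (Finset.mem_univ z))).1
        have g3 := hz3 (Finset.mem_univ z)
        have h2 := plane_pair (K := ZMod p) (dd := D2) w (aa (fun i => ((v i : ℤ) : ZMod p)) z) (F i) (F j)
          (htd i) (htd j) (hcp i) (hcp j) r s
          (fun l => (hdd i (ZMod p) _ z l).trans (by rw [hD2]; exact bound_all dd i))
          (fun l => (hdd j (ZMod p) _ z l).trans (by rw [hD2]; exact bound_all dd j)) g1 g2 (by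
            intro heq
            apply g3
            obtain ⟨a, b, hab, hEe⟩ := hEab (i, j) hij
            rw [hS, ← spz_int, hEe]
            have e1 : spz (fun i => ((v i : ℤ) : ZMod p)) z (((gen w (MvPolynomial.C (tc w (F j)) * F i -
                MvPolynomial.C (tc w (F i)) * F j)).coeff b).coeff a) =
                (((gen w (MvPolynomial.C (tc w (F j)) * F i -
                MvPolynomial.C (tc w (F i)) * F j)).map (mapRingHom (spz (fun i => ((v i : ℤ) : ZMod p)) z))).coeff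
                  b).coeff a := by
              rw [coeff_map, coe_mapRingHom, coeff_map]
            show spz (fun i => ((v i : ℤ) : ZMod p)) z (((gen w (MvPolynomial.C (tc w (F j)) * F i -
                MvPolynomial.C (tc w (F i)) * F j)).coeff b).coeff a) = 0
            rw [e1, gen_map]
            have e2 : th w (aa (fun i => ((v i : ℤ) : ZMod p)) z) (MvPolynomial.C (tc w (F j)) * F i -
                MvPolynomial.C (tc w (F i)) * F j) =
                C (C (((tc w (F j) : ℤ) : ZMod p) * r - ((tc w (F i) : ℤ) : ZMod p) * s)) := by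
              have e3 : ∀ c : ℤ, th w (aa (fun i => ((v i : ℤ) : ZMod p)) z) (MvPolynomial.C c) =
                  C (C ((c : ℤ) : ZMod p)) := by
                intro c
                have e4 : (MvPolynomial.C c : MvPolynomial (Fin (m + 2)) ℤ) = ((c : ℤ) : MvPolynomial (Fin (m + 2)) ℤ) := by
                  rw [← map_intCast (MvPolynomial.C : ℤ →+* MvPolynomial (Fin (m + 2)) ℤ), Int.cast_id]
                rw [e4, map_intCast, map_intCast, map_intCast]
              rw [map_sub, map_mul, map_mul, e3, e3, map_sub, map_sub, map_mul, map_mul, map_mul, map_mul]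
              linear_combination heq
            rw [e2, coeff_C]
            split_ifs with hb
            · rw [coeff_C, if_neg]
              rintro rfl
              exact hab (by rw [hb])
            · rw [coeff_zero])
        have h3 : Nat.card {y : ZMod p × ZMod p //
            MvPolynomial.aeval (pt w (fun i => ((v i : ℤ) : ZMod p)) z y) (F i) = r ∧
            MvPolynomial.aeval (pt w (fun i => ((v i : ℤ) : ZMod p)) z y) (F j) = s} ≤ (d + d) * D2 * d := by
          refine le_trans (le_of_eq ?_) (h2.trans ?_)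
          · refine Nat.card_congr (Equiv.subtypeEquivRight fun y => ?_)
            rw [map_sub, map_sub, th_pt, th_pt, ev_C, eval₂_C, ev_C, eval₂_C, RingHom.id_apply, RingHom.id_apply,
              sub_eq_zero, sub_eq_zero]
          · have := hdj i
            have := hdj j
            gcongr
        exact_mod_cast h3) (by
        intro z
        have h2 := plane_le (K := ZMod p) w (aa (fun i => ((v i : ℤ) : ZMod p)) z) (F i) (htd i) (hcp i) r
        rw [Nat.card_zmod] at h2
        have h3 : Nat.card {y : ZMod p × ZMod p //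
            MvPolynomial.aeval (pt w (fun i => ((v i : ℤ) : ZMod p)) z y) (F i) = r ∧
            MvPolynomial.aeval (pt w (fun i => ((v i : ℤ) : ZMod p)) z y) (F j) = s} ≤ p * d := by
          refine le_trans ?_ (h2.trans (Nat.mul_le_mul_left _ (hdj i)))
          refine Nat.card_le_card_of_injective (fun y : {y : ZMod p × ZMod p //
            MvPolynomial.aeval (pt w (fun i => ((v i : ℤ) : ZMod p)) z y) (F i) = r ∧
            MvPolynomial.aeval (pt w (fun i => ((v i : ℤ) : ZMod p)) z y) (F j) = s} =>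
            (⟨y.1, by
              rw [map_sub, th_pt, ev_C, eval₂_C, RingHom.id_apply, sub_eq_zero]
              exact y.2.1⟩ : {y : ZMod p × ZMod p // ev (RingHom.id (ZMod p)) y
                (th w (aa (fun i => ((v i : ℤ) : ZMod p)) z) (F i) - C (C r)) = 0})) ?_
          intro y y' h
          exact Subtype.ext (congrArg (fun w => w.1) h)
        exact_mod_cast h3)
    rw [← hcnt] at h1
    have e1 : (p : ℝ) ^ (m + 2) = (p : ℝ) ^ 2 * (p : ℝ) ^ m := by ring
    rw [e1]
    have h4 : (Nat.card {x : Fin (m + 2) → ZMod p // MvPolynomial.aeval x (F i) = r ∧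
        MvPolynomial.aeval x (F j) = s} : ℝ) ≤ C₁ * (p : ℝ) ^ m := by
      refine h1.trans ?_
      apply mul_le_mul_of_nonneg_right _ (by positivity)
      rw [hC₁]
      have h5 : (0 : ℝ) ≤ Δ * ((d : ℝ) + 1) := by positivity
      linarith
    calc _ ≤ (p : ℝ) ^ 2 * (C₁ * (p : ℝ) ^ m) := mul_le_mul_of_nonneg_left h4 (by positivity)
      _ = _ := by ring

open scoped Classical in
/-- **the criterion in several variables** -/
theorem crit_n {m : ℕ} {ι : Type} [Fintype ι] (F : ι → MvPolynomial (Fin (m + 2)) ℤ)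
    (hF : ∀ j, ∃ c₀ : ℂ, Irreducible (MvPolynomial.map (Int.castRingHom ℂ) (F j) - MvPolynomial.C c₀))
    (hind : ∀ i j, i ≠ j → ∀ a b c : ℤ, MvPolynomial.C a * F i + MvPolynomial.C b * F j =
      MvPolynomial.C c → a = 0 ∧ b = 0) :
    Pool.Agent.N542.PT.Crit (m + 2) F := by
  obtain ⟨h0, μ, hμ, B₀, C, hU, hP⟩ := counts_n F hF hind
  exact Pool.Agent.V7H14.BP.crit4A (m + 2) F h0 μ hμ B₀ C (1 / 2) (by norm_num) hU hP

open scoped Classical in
/-- **the theorem for boxes** -/
theorem box_n {m : ℕ} {ι : Type} [Fintype ι] (F : ι → MvPolynomial (Fin (m + 2)) ℤ)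
    (hF : ∀ j, ∃ c₀ : ℂ, Irreducible (MvPolynomial.map (Int.castRingHom ℂ) (F j) - MvPolynomial.C c₀))
    (hind : ∀ i j, i ≠ j → ∀ a b c : ℤ, MvPolynomial.C a * F i + MvPolynomial.C b * F j =
      MvPolynomial.C c → a = 0 ∧ b = 0) :
    ∃ c : ℝ, 0 < c ∧ ∃ Z₀ : ℝ, ∀ Z : ℕ, Z₀ ≤ Z → ∀ M : Fin (m + 2) → ℤ, ∃ x : Fin (m + 2) → ℤ,
      (∀ i, M i < x i ∧ x i ≤ M i + Z) ∧ ∀ j, ∀ n : ℤ, |(n : ℝ) - MvPolynomial.eval x (F j)| ≤ c * Pool.Agent.H256R2.SC.ff Z →
        ∃ p : ℕ, p.Prime ∧ (p : ℝ) ≤ (Z : ℝ) ^ (1 / 10 : ℝ) ∧ (p : ℤ) ∣ n := by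
  obtain ⟨h0, μ, hμ, B₀, C, hU, hP⟩ := counts_n F hF hind
  exact Pool.Agent.V7H14.GF.crit4 (m + 2) F h0 μ hμ B₀ C (1 / 2) (by norm_num) hU hP

end Pool.Agent.V7H14.BN
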