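import Mathlib

set_option autoImplicit false
set_option linter.all false

/-! # A monic irreducible polynomial in two variables with a simple rational zero is absolutely irreducible -/

open Polynomial

namespace Pool.Agent.V7H14.BN

theorem map_map_ev {R S : Type} [CommRing R] [CommRing S] (f : R →+* S) (a b : R) (p : R[X][X]) :
    evalEvalRingHom (f a) (f b) (p.map (mapRingHom f)) = f (evalEvalRingHom a b p) := by
  have h : (evalEvalRingHom (f a) (f b)).comp (mapRingHom (mapRingHom f)) = f.comp (evalEvalRingHom a b) := by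
    apply Polynomial.ringHom_ext'
    · apply Polynomial.ringHom_ext'
      · ext r
        simp
      · simp
    · simp
  exact congrArg (fun g => g p) h

theorem abs_irr {k : Type} [Field k] [CharZero k] {G : k[X][X]} (hG : G.Monic) (hirr : Irreducible G) (a b : k)
    (h0 : evalEvalRingHom a b G = 0) (h1 : evalEvalRingHom a b (derivative G) ≠ 0) :
    Irreducible (G.map (mapRingHom (algebraMap k (AlgebraicClosure k)))) := by
  classical
  set K := AlgebraicClosure k with hK
  set ι : k →+* K := algebraMap k K with hι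
  have hιi : Function.Injective ι := ι.injective
  set Gb := G.map (mapRingHom ι) with hGb
  have hGbm : Gb.Monic := hG.map _
  set ev : K[X][X] →+* K := evalEvalRingHom (ι a) (ι b) with hev
  have hevG : ev Gb = 0 := by
    rw [hev, hGb, map_map_ev, h0, map_zero]
  have hevG' : ev (derivative Gb) ≠ 0 := by
    rw [hev, hGb, derivative_map, map_map_ev]
    exact (_root_.map_ne_zero ι).2 h1
  -- the monic divisors vanishing at the point
  have hex : ∃ n : ℕ, ∃ u : K[X][X], u.Monic ∧ u ∣ Gb ∧ ev u = 0 ∧ u.natDegree = n :=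
    ⟨_, Gb, hGbm, dvd_rfl, hevG, rfl⟩
  obtain ⟨u, hum, hud, hue, hun⟩ := Nat.find_spec hex
  have hmin : ∀ w : K[X][X], w.Monic → w ∣ Gb → ev w = 0 → Nat.find hex ≤ w.natDegree := fun w h1 h2 h3 =>
    Nat.find_min' hex ⟨w, h1, h2, h3, rfl⟩
  have hirr' : ∀ w : K[X][X], w.Monic → w ∣ Gb → ev w = 0 → w.natDegree = Nat.find hex → Irreducible w := by
    intro w hw hwd hwe hwn
    rw [hw.irreducible_iff_natDegree]
    refine ⟨?_, fun f g hf hg hfg => ?_⟩
    · rintro rfl
      rw [map_one] at hwe
      exact one_ne_zero hwe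
    · have hdeg : w.natDegree = f.natDegree + g.natDegree := by rw [← hfg, hf.natDegree_mul hg]
      have hfe : ev f = 0 ∨ ev g = 0 := by
        rw [← mul_eq_zero, ← map_mul, hfg, hwe]
      rcases hfe with h | h
      · have := hmin f hf ((Dvd.intro _ hfg).trans hwd) h
        right
        omega
      · have := hmin g hg ((Dvd.intro_left _ hfg).trans hwd) h
        left
        omega
  have hu := hirr' u hum hud hue hun
  -- the conjugates
  have hfix : ∀ σ : K ≃ₐ[k] K, u.map (mapRingHom (σ : K →+* K)) = u := by
    intro σ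
    have hσι : (σ : K →+* K).comp ι = ι := by
      ext x
      exact σ.commutes x
    set s := u.map (mapRingHom (σ : K →+* K)) with hs
    have hsm : s.Monic := hum.map _
    have hsd : s ∣ Gb := by
      have h2 := Polynomial.map_dvd (mapRingHom (σ : K →+* K)) hud
      have h3 : Gb.map (mapRingHom (σ : K →+* K)) = Gb := by
        rw [hGb, Polynomial.map_map, mapRingHom_comp, hσι]
      rw [h3] at h2
      exact h2
    have hse : ev s = 0 := by
      have h2 := map_map_ev (σ : K →+* K) (ι a) (ι b) u
      have e1 : (σ : K →+* K) (ι a) = ι a := σ.commutes a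
      have e2 : (σ : K →+* K) (ι b) = ι b := σ.commutes b
      rw [e1, e2] at h2
      rw [hev, hs, h2]
      have h3 : evalEvalRingHom (ι a) (ι b) u = 0 := hue
      rw [h3, map_zero]
    have hsn : s.natDegree = Nat.find hex := by
      rw [← hun, hs, hum.natDegree_map]
    have hsirr := hirr' s hsm hsd hse hsn
    by_contra hne
    obtain ⟨h, hh⟩ := hud
    have hsp : Prime s := hsirr.prime
    rw [hh] at hsd
    rcases hsp.dvd_or_dvd hsd with h2 | h2
    · have h3 := hsirr.associated_of_dvd hu h2
      exact hne (eq_of_monic_of_associated hsm hum h3)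
    · obtain ⟨h', hh'⟩ := h2
      apply hevG'
      rw [hh, hh', derivative_mul, map_add, map_mul, map_mul, map_mul, hue, hse]
      ring
  have hlift : u ∈ lifts (mapRingHom ι) := by
    rw [lifts_iff_coeff_lifts]
    intro i
    have h2 : u.coeff i ∈ lifts ι := by
      rw [lifts_iff_coeff_lifts]
      intro l
      rw [hι, InfiniteGalois.mem_range_algebraMap_iff_fixed]
      intro σ
      have h3 := congrArg (fun q => (q.coeff i).coeff l) (hfix σ)
      simpa using h3
    obtain ⟨p, hp⟩ := (lifts_iff_set_range _).1 h2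
    exact ⟨p, hp⟩
  obtain ⟨u₀, hu₀, hu₀d, hu₀m⟩ := lifts_and_natDegree_eq_and_monic hlift hum
  have h2 : u₀ ∣ G := by
    rw [← map_dvd_map (mapRingHom ι) (Polynomial.map_injective _ hιi) hu₀m, hu₀]
    exact hud
  have h3 : ¬ IsUnit u₀ := by
    intro h
    have h4 := hu₀m.eq_one_of_isUnit h
    rw [h4, Polynomial.map_one] at hu₀
    exact hu.not_isUnit (hu₀ ▸ isUnit_one)
  have h4 : Associated u₀ G := by
    obtain ⟨c, hc⟩ := h2
    rcases hirr.isUnit_or_isUnit hc with h | h
    · exact absurd h h3
    · rw [hc]
      exact associated_mul_unit_right _ _ h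
  have h5 := eq_of_monic_of_associated hu₀m hG h4
  rw [h5] at hu₀
  rw [hGb] at *
  rw [hu₀]
  exact hu

end Pool.Agent.V7H14.BN
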