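import Pool.Agent.V7H14.BN.AbsIrr

set_option autoImplicit false
set_option linter.all false

/-! # A plane section of an irreducible hypersurface is absolutely irreducible -/

open Polynomial

namespace Pool.Agent.V7H14.BN

section
variable {m : ℕ}

/-- the ring of the parameters -/
abbrev BB (m : ℕ) : Type := MvPolynomial (Fin m) ℂ

/-- the embedding into the field of fractions -/
noncomputable def io (m : ℕ) : (BB m)[X] →+* FractionRing (BB m)[X] := algebraMap _ _

/-- the restriction to the planes `z = z₀ + v (y - y₀)` -/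
noncomputable def phi (y₀ : ℂ) (z₀ : Fin m → ℂ) : (BB m)[X] →+* (BB m)[X] :=
  eval₂RingHom (MvPolynomial.eval₂Hom ((C : BB m →+* (BB m)[X]).comp (MvPolynomial.C : ℂ →+* BB m))
    (fun i => C (MvPolynomial.C (z₀ i)) + C (MvPolynomial.X i) * (X - C (MvPolynomial.C y₀)))) X

/-- its inverse -/
noncomputable def psi (y₀ : ℂ) (z₀ : Fin m → ℂ) : (BB m)[X] →+* FractionRing (BB m)[X] :=
  eval₂RingHom (MvPolynomial.eval₂Hom ((io m).comp ((C : BB m →+* (BB m)[X]).comp (MvPolynomial.C : ℂ →+* BB m)))
    (fun i => (io m (C (MvPolynomial.X i)) - io m (C (MvPolynomial.C (z₀ i)))) /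
      (io m (X - C (MvPolynomial.C y₀))))) (io m X)

theorem psi_phi (y₀ : ℂ) (z₀ : Fin m → ℂ) : (psi y₀ z₀).comp (phi y₀ z₀) = io m := by
  have hne : io m (X - C (MvPolynomial.C y₀)) ≠ 0 := by
    rw [io, ne_eq, IsFractionRing.to_map_eq_zero_iff]
    exact X_sub_C_ne_zero _
  have h0 : ∀ r : ℂ, psi y₀ z₀ (C (MvPolynomial.C r)) = io m (C (MvPolynomial.C r)) := by
    intro r
    rw [psi, coe_eval₂RingHom, eval₂_C, MvPolynomial.coe_eval₂Hom, MvPolynomial.eval₂_C]
    rfl
  have hX : psi y₀ z₀ X = io m X := by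
    rw [psi, coe_eval₂RingHom, eval₂_X]
  have hZ : ∀ i, psi y₀ z₀ (C (MvPolynomial.X i)) =
      (io m (C (MvPolynomial.X i)) - io m (C (MvPolynomial.C (z₀ i)))) /
      (io m (X - C (MvPolynomial.C y₀))) := by
    intro i
    rw [psi, coe_eval₂RingHom, eval₂_C, MvPolynomial.coe_eval₂Hom, MvPolynomial.eval₂_X]
  apply Polynomial.ringHom_ext'
  · apply MvPolynomial.ringHom_ext
    · intro r
      have h1 : phi y₀ z₀ (C (MvPolynomial.C r)) = C (MvPolynomial.C r) := by
        rw [phi, coe_eval₂RingHom, eval₂_C, MvPolynomial.coe_eval₂Hom, MvPolynomial.eval₂_C]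
        rfl
      show psi y₀ z₀ (phi y₀ z₀ (C (MvPolynomial.C r))) = _
      rw [h1, h0]
      rfl
    · intro i
      have h1 : phi y₀ z₀ (C (MvPolynomial.X i)) =
          C (MvPolynomial.C (z₀ i)) + C (MvPolynomial.X i) * (X - C (MvPolynomial.C y₀)) := by
        rw [phi, coe_eval₂RingHom, eval₂_C, MvPolynomial.coe_eval₂Hom, MvPolynomial.eval₂_X]
      show psi y₀ z₀ (phi y₀ z₀ (C (MvPolynomial.X i))) = _
      have h2 : psi y₀ z₀ (X - C (MvPolynomial.C y₀)) = io m (X - C (MvPolynomial.C y₀)) := by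
        rw [map_sub, hX, h0, ← map_sub]
      rw [h1, map_add, map_mul, h0, h2, hZ, div_mul_cancel₀ _ hne]
      simp
  · show psi y₀ z₀ (phi y₀ z₀ X) = _
    rw [phi, coe_eval₂RingHom, eval₂_X, hX]

theorem ev_phi (y₀ : ℂ) (z₀ : Fin m → ℂ) : (evalRingHom (MvPolynomial.C y₀)).comp (phi y₀ z₀) =
    (MvPolynomial.C : ℂ →+* MvPolynomial (Fin m) ℂ).comp (eval₂RingHom (MvPolynomial.eval z₀) y₀) := by
  apply Polynomial.ringHom_ext'
  · apply MvPolynomial.ringHom_ext
    · intro r
      simp [phi]
    · intro i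
      simp [phi]
  · simp [phi]

/-- a simple point -/
theorem simple_point (H : (MvPolynomial (Fin m) ℂ)[X][X]) (hH : H.Monic) (hd : 0 < H.natDegree)
    (hirr : Irreducible H) : ∃ (y₀ : ℂ) (z₀ : Fin m → ℂ) (x₀ : ℂ),
      (H.map (eval₂RingHom (MvPolynomial.eval z₀) y₀)).eval x₀ = 0 ∧
      ((derivative H).map (eval₂RingHom (MvPolynomial.eval z₀) y₀)).eval x₀ ≠ 0 := by
  classical
  set L := FractionRing (MvPolynomial (Fin m) ℂ)[X]
  have hinj : Function.Injective (algebraMap (MvPolynomial (Fin m) ℂ)[X] L) := IsFractionRing.injective _ _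
  have h1 : Irreducible (H.map (algebraMap (MvPolynomial (Fin m) ℂ)[X] L)) :=
    (hH.irreducible_iff_irreducible_map_fraction_map (K := L)).1 hirr
  have h3 : IsCoprime (H.map (algebraMap (MvPolynomial (Fin m) ℂ)[X] L))
      ((derivative H).map (algebraMap (MvPolynomial (Fin m) ℂ)[X] L)) := by
    rw [← derivative_map]
    exact h1.separable
  have h4 : resultant H (derivative H) ≠ 0 := by
    intro h0
    apply resultant_ne_zero _ _ h3
    rw [natDegree_map_eq_of_injective hinj, natDegree_map_eq_of_injective hinj, resultant_map_map, h0, map_zero]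
  obtain ⟨a, b, -, -, hab⟩ := exists_mul_add_mul_eq_C_resultant H (derivative H) le_rfl le_rfl (Or.inl hd.ne')
  obtain ⟨k, hk⟩ : ∃ k, (resultant H (derivative H)).coeff k ≠ 0 := by
    by_contra hcon
    push Not at hcon
    exact h4 (Polynomial.ext (by simpa using hcon))
  obtain ⟨z₀, hz₀⟩ : ∃ z₀ : Fin m → ℂ, MvPolynomial.eval z₀ ((resultant H (derivative H)).coeff k) ≠ 0 := by
    by_contra hcon
    push Not at hcon
    exact hk (MvPolynomial.funext (by simpa using hcon))
  have h5 : (resultant H (derivative H)).map (MvPolynomial.eval z₀) ≠ 0 := by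
    intro h0
    apply hz₀
    rw [← coeff_map, h0, coeff_zero]
  obtain ⟨y₀, hy₀⟩ : ∃ y₀ : ℂ, ((resultant H (derivative H)).map (MvPolynomial.eval z₀)).eval y₀ ≠ 0 := by
    by_contra hcon
    push Not at hcon
    exact h5 (Polynomial.funext (by simpa using hcon))
  obtain ⟨x₀, hx₀⟩ := IsAlgClosed.exists_root (H.map (eval₂RingHom (MvPolynomial.eval z₀) y₀)) (by
    have h6 := hH.natDegree_map (eval₂RingHom (MvPolynomial.eval z₀) y₀)
    intro h7
    have h8 := natDegree_eq_of_degree_eq_some (n := 0) h7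
    omega)
  refine ⟨y₀, z₀, x₀, hx₀, ?_⟩
  intro h6
  have h7 := congrArg (fun q => (q.map (eval₂RingHom (MvPolynomial.eval z₀) y₀)).eval x₀) hab
  simp only [Polynomial.map_add, Polynomial.map_mul, eval_add, eval_mul] at h7
  rw [IsRoot.def] at hx₀
  rw [hx₀, h6, zero_mul, zero_mul, add_zero, Polynomial.map_C, eval_C, coe_eval₂RingHom, eval₂_eq_eval_map] at h7
  exact hy₀ h7.symm

/-- **a plane section of an irreducible hypersurface** -/
theorem bertini (H : (MvPolynomial (Fin m) ℂ)[X][X]) (hH : H.Monic) (hd : 0 < H.natDegree)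
    (hirr : Irreducible H) : ∃ (y₀ : ℂ) (z₀ : Fin m → ℂ),
      Irreducible ((H.map (phi y₀ z₀)).map (mapRingHom
        ((algebraMap (FractionRing (MvPolynomial (Fin m) ℂ))
          (AlgebraicClosure (FractionRing (MvPolynomial (Fin m) ℂ)))).comp
          (algebraMap (MvPolynomial (Fin m) ℂ) (FractionRing (MvPolynomial (Fin m) ℂ)))))) := by
  classical
  obtain ⟨y₀, z₀, x₀, hx₀, hx₁⟩ := simple_point H hH hd hirr
  refine ⟨y₀, z₀, ?_⟩
  set B := BB m
  set k := FractionRing B
  have h1 : Irreducible (H.map (io m)) :=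
    (hH.irreducible_iff_irreducible_map_fraction_map (K := FractionRing (BB m)[X])).1 hirr
  have h2 : Irreducible (H.map (phi y₀ z₀)) := by
    apply (hH.map (phi y₀ z₀)).irreducible_of_irreducible_map (psi y₀ z₀)
    rw [Polynomial.map_map, psi_phi]
    exact h1
  have hm2 : (H.map (phi y₀ z₀)).Monic := hH.map _
  have h3 : Irreducible ((H.map (phi y₀ z₀)).map (io m)) :=
    (hm2.irreducible_iff_irreducible_map_fraction_map (K := FractionRing (BB m)[X])).1 h2
  have hinj : Function.Injective ((io m).comp (C : B →+* B[X])) :=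
    (IsFractionRing.injective (BB m)[X] (FractionRing (BB m)[X])).comp C_injective
  have h4 : Irreducible ((H.map (phi y₀ z₀)).map (mapRingHom (algebraMap B k))) := by
    apply (hm2.map (mapRingHom (algebraMap B k))).irreducible_of_irreducible_map
      (eval₂RingHom (IsFractionRing.lift hinj) (io m X))
    rw [Polynomial.map_map]
    have e : (eval₂RingHom (IsFractionRing.lift hinj) (io m X)).comp
        (mapRingHom (algebraMap B k)) = io m := by
      apply Polynomial.ringHom_ext'
      · refine RingHom.ext fun x => ?_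
        have h5 : IsFractionRing.lift hinj (algebraMap B k x) = (io m) (C x) :=
          IsFractionRing.lift_algebraMap hinj x
        simp [h5]
      · simp
    rw [e]
    exact h3
  have hmk := hm2.map (mapRingHom (algebraMap B k))
  have hpt : ∀ q : B[X][X], evalEvalRingHom (algebraMap B k (MvPolynomial.C y₀)) (algebraMap B k (MvPolynomial.C x₀))
      ((q.map (phi y₀ z₀)).map (mapRingHom (algebraMap B k))) =
      algebraMap B k (MvPolynomial.C ((q.map (eval₂RingHom (MvPolynomial.eval z₀) y₀)).eval x₀)) := by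
    intro q
    rw [map_map_ev]
    congr 1
    have h6 : evalEvalRingHom (MvPolynomial.C y₀ : B) (MvPolynomial.C x₀) (q.map (phi y₀ z₀)) =
        (q.map ((evalRingHom (MvPolynomial.C y₀)).comp (phi y₀ z₀))).eval (MvPolynomial.C x₀) := by
      rw [evalEvalRingHom_eq, coe_eval₂RingHom, eval₂_map, eval_map]
    rw [h6, ev_phi, eval_map, eval_map, Polynomial.hom_eval₂]
  have h5 := abs_irr hmk h4 (algebraMap B k (MvPolynomial.C y₀)) (algebraMap B k (MvPolynomial.C x₀))
    (by rw [hpt, hx₀, map_zero, map_zero]) (by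
      rw [derivative_map, derivative_map, hpt]
      rw [ne_eq, IsFractionRing.to_map_eq_zero_iff, MvPolynomial.C_eq_zero]
      exact hx₁)
  rw [Polynomial.map_map, mapRingHom_comp] at h5
  exact h5

end

end Pool.Agent.V7H14.BN
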