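import Pool.Agent.V7H14.BN.Params
import Pool.Agent.V7H14.GF.Alg3

set_option autoImplicit false
set_option linter.all false

/-! # Counting points by parallel planes -/

open Polynomial

namespace Pool.Agent.V7H14.BN

open Pool.Agent.R410.LW (ev ev_C ev_X ev_eq curve_le curve_le_all)
open Pool.Agent.V7H14.GF (common not_dvd_large)

section
variable {K : Type} [Field K] {m : ℕ}

/-- the point with the coordinates `z`, `(a, b)` -/
def pt (w : Fin (m + 2) → ℤ) (v z : Fin m → K) (y : K × K) : Fin (m + 2) → K :=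
  Fin.cons ((w 0 : K) * y.2) (Fin.cons (y.1 + (w 1 : K) * y.2)
    (fun i => z i + v i * y.1 + (w i.succ.succ : K) * y.2))

theorem th_pt (w : Fin (m + 2) → ℤ) (v z : Fin m → K) (F : MvPolynomial (Fin (m + 2)) ℤ) (y : K × K) :
    ev (RingHom.id K) y (th w (aa v z) F) = MvPolynomial.aeval (pt w v z y) F := by
  rw [th_ev]
  congr 2
  funext i
  refine fin_cases2 (P := fun i => (aa v z i).eval₂ (RingHom.id K) y.1 + (w i : K) * y.2 = pt w v z y i)
    ?_ ?_ ?_ i
  · rw [aa_zero, eval₂_zero, zero_add]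
    rfl
  · rw [aa_one, eval₂_X]
    rfl
  · intro i
    rw [aa_succ, eval₂_add, eval₂_mul, eval₂_C, eval₂_C, eval₂_X]
    rfl

/-- the coordinates -/
def coE (w : Fin (m + 2) → ℤ) (hw : ((w 0 : ℤ) : K) ≠ 0) (v : Fin m → K) :
    (Σ _ : Fin m → K, K × K) ≃ (Fin (m + 2) → K) where
  toFun x := pt w v x.1 x.2
  invFun x := ⟨fun i => x i.succ.succ - v i * (x 1 - (w 1 : K) * ((w 0 : K)⁻¹ * x 0)) -
      (w i.succ.succ : K) * ((w 0 : K)⁻¹ * x 0), (x 1 - (w 1 : K) * ((w 0 : K)⁻¹ * x 0), (w 0 : K)⁻¹ * x 0)⟩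
  left_inv x := by
    obtain ⟨z, a, b⟩ := x
    have h0 : pt w v z (a, b) 0 = (w 0 : K) * b := rfl
    have h1 : pt w v z (a, b) 1 = a + (w 1 : K) * b := rfl
    have h2 : ∀ i : Fin m, pt w v z (a, b) i.succ.succ = z i + v i * a + (w i.succ.succ : K) * b := fun i => rfl
    have h3 : (w 0 : K)⁻¹ * ((w 0 : K) * b) = b := by rw [← mul_assoc, inv_mul_cancel₀ hw, one_mul]
    show (⟨fun i => pt w v z (a, b) i.succ.succ - v i * (pt w v z (a, b) 1 - (w 1 : K) *
      ((w 0 : K)⁻¹ * pt w v z (a, b) 0)) - (w i.succ.succ : K) * ((w 0 : K)⁻¹ * pt w v z (a, b) 0),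
      (pt w v z (a, b) 1 - (w 1 : K) * ((w 0 : K)⁻¹ * pt w v z (a, b) 0), (w 0 : K)⁻¹ * pt w v z (a, b) 0)⟩ :
      Σ _ : Fin m → K, K × K) = ⟨z, (a, b)⟩
    simp only [h0, h1, h2, h3]
    have e1 : a + (w 1 : K) * b - (w 1 : K) * b = a := by ring
    rw [e1]
    congr 1
    funext i
    ring
  right_inv x := by
    have h3 : (w 0 : K) * ((w 0 : K)⁻¹ * x 0) = x 0 := by rw [← mul_assoc, mul_inv_cancel₀ hw, one_mul]
    funext i
    refine fin_cases2 (P := fun i => pt w v (fun i => x i.succ.succ - v i * (x 1 - (w 1 : K) *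
      ((w 0 : K)⁻¹ * x 0)) - (w i.succ.succ : K) * ((w 0 : K)⁻¹ * x 0))
      (x 1 - (w 1 : K) * ((w 0 : K)⁻¹ * x 0), (w 0 : K)⁻¹ * x 0) i = x i) ?_ ?_ ?_ i
    · exact h3
    · show x 1 - (w 1 : K) * ((w 0 : K)⁻¹ * x 0) + (w 1 : K) * ((w 0 : K)⁻¹ * x 0) = x 1
      ring
    · intro i
      show x i.succ.succ - v i * (x 1 - (w 1 : K) * ((w 0 : K)⁻¹ * x 0)) - (w i.succ.succ : K) *
        ((w 0 : K)⁻¹ * x 0) + v i * (x 1 - (w 1 : K) * ((w 0 : K)⁻¹ * x 0)) + (w i.succ.succ : K) *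
        ((w 0 : K)⁻¹ * x 0) = x i.succ.succ
      ring

/-- counting by planes -/
theorem card_planes [Fintype K] (w : Fin (m + 2) → ℤ) (hw : ((w 0 : ℤ) : K) ≠ 0) (v : Fin m → K)
    (Q : (Fin (m + 2) → K) → Prop) :
    Nat.card {x : Fin (m + 2) → K // Q x} = ∑ z : Fin m → K, Nat.card {y : K × K // Q (pt w v z y)} := by
  classical
  rw [← Nat.card_sigma]
  symm
  refine Nat.card_congr (Equiv.ofBijective (fun s : (Σ z : Fin m → K, {y : K × K // Q (pt w v z y)}) =>
    (⟨pt w v s.1 s.2.1, s.2.2⟩ : {x : Fin (m + 2) → K // Q x})) ⟨?_, ?_⟩)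
  · rintro ⟨z, y, hy⟩ ⟨z', y', hy'⟩ h
    have h1 : pt w v z y = pt w v z' y' := congrArg Subtype.val h
    have h2 : (⟨z, y⟩ : Σ _ : Fin m → K, K × K) = ⟨z', y'⟩ := (coE w hw v).injective h1
    simp only [Sigma.mk.injEq] at h2
    obtain ⟨rfl, h3⟩ := h2
    have h4 : y = y' := eq_of_heq h3
    subst h4
    rfl
  · rintro ⟨x, hx⟩
    have h1 : pt w v ((coE w hw v).symm x).1 ((coE w hw v).symm x).2 = x := (coE w hw v).apply_symm_apply x
    exact ⟨⟨((coE w hw v).symm x).1, ((coE w hw v).symm x).2, by rw [h1]; exact hx⟩, Subtype.ext h1⟩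

/-- the planes on which a nonzero polynomial vanishes -/
theorem bad_planes [Fintype K] [DecidableEq K] (P : MvPolynomial (Fin m) K) (hP : P ≠ 0) :
    (((Finset.univ : Finset (Fin m → K)).filter (fun z => MvPolynomial.eval z P = 0)).card : ℝ) * Fintype.card K ≤
      P.totalDegree * (Fintype.card K : ℝ) ^ m := by
  have h1 := MvPolynomial.schwartz_zippel_totalDegree hP (Finset.univ : Finset K)
  have hK : 0 < Fintype.card K := Fintype.card_pos
  rw [Finset.card_univ] at h1
  have hK' : (0 : ℚ) < (Fintype.card K : ℚ) := by exact_mod_cast hK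
  have h2 : ((((Fintype.piFinset fun _ : Fin m => (Finset.univ : Finset K)).filter
      (fun z => MvPolynomial.eval z P = 0)).card : ℚ) / (Fintype.card K : ℚ) ^ m) ≤
      (P.totalDegree : ℚ) / Fintype.card K := by
    exact_mod_cast h1
  rw [div_le_div_iff₀ (by positivity) hK', Fintype.piFinset_univ] at h2
  exact_mod_cast h2

end

section
variable {K : Type} [Field K] {n : ℕ}

/-- the monic form of a plane curve -/
theorem monic_form (w : Fin n → ℤ) (a : Fin n → K[X]) (F : MvPolynomial (Fin n) ℤ) (h0 : 0 < F.totalDegree)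
    (hc : ((tc w F : ℤ) : K) ≠ 0) (r : K) :
    (C (C ((tc w F : ℤ) : K)⁻¹) * (th w a F - C (C r))).Monic ∧
      (C (C ((tc w F : ℤ) : K)⁻¹) * (th w a F - C (C r))).natDegree = F.totalDegree := by
  have hnd : (th w a F - C (C r)).natDegree ≤ F.totalDegree := by
    refine (natDegree_sub_le _ _).trans (max_le (th_nd _ _ _) ?_)
    rw [natDegree_C]
    exact Nat.zero_le _
  have hco : (th w a F - C (C r)).coeff F.totalDegree = C ((tc w F : ℤ) : K) := by
    rw [coeff_sub, th_coeff, coeff_C_of_ne_zero (by omega), sub_zero]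
  have hfco : (C (C ((tc w F : ℤ) : K)⁻¹) * (th w a F - C (C r))).coeff F.totalDegree = 1 := by
    rw [coeff_C_mul, hco, ← map_mul, inv_mul_cancel₀ hc, map_one]
  have hfnd : (C (C ((tc w F : ℤ) : K)⁻¹) * (th w a F - C (C r))).natDegree = F.totalDegree := by
    apply le_antisymm
    · exact (natDegree_C_mul_le _ _).trans hnd
    · apply le_natDegree_of_ne_zero
      rw [hfco]
      exact one_ne_zero
  exact ⟨by rw [Monic, leadingCoeff, hfnd, hfco], hfnd⟩

theorem ev_form (w : Fin n → ℤ) (a : Fin n → K[X]) (F : MvPolynomial (Fin n) ℤ)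
    (hc : ((tc w F : ℤ) : K) ≠ 0) (r : K) (y : K × K) :
    ev (RingHom.id K) y (C (C ((tc w F : ℤ) : K)⁻¹) * (th w a F - C (C r))) = 0 ↔
      ev (RingHom.id K) y (th w a F - C (C r)) = 0 := by
  rw [map_mul, ev_C, eval₂_C, RingHom.id_apply, mul_eq_zero]
  constructor
  · rintro (h | h)
    · exact absurd h (inv_ne_zero hc)
    · exact h
  · exact fun h => Or.inr h

theorem plane_le [Finite K] (w : Fin n → ℤ) (a : Fin n → K[X]) (F : MvPolynomial (Fin n) ℤ)
    (h0 : 0 < F.totalDegree) (hc : ((tc w F : ℤ) : K) ≠ 0) (r : K) :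
    Nat.card {y : K × K // ev (RingHom.id K) y (th w a F - C (C r)) = 0} ≤ Nat.card K * F.totalDegree := by
  obtain ⟨h1, h2⟩ := monic_form w a F h0 hc r
  have h3 := curve_le_all h1 (RingHom.id K)
  rw [h2] at h3
  refine le_trans (le_of_eq ?_) h3
  exact Nat.card_congr (Equiv.subtypeEquivRight fun y => (ev_form w a F hc r y).symm)

theorem plane_pair [Finite K] {dd : ℕ} (w : Fin n → ℤ) (a : Fin n → K[X]) (F G : MvPolynomial (Fin n) ℤ)
    (h0 : 0 < F.totalDegree) (g0 : 0 < G.totalDegree) (hc : ((tc w F : ℤ) : K) ≠ 0)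
    (gc : ((tc w G : ℤ) : K) ≠ 0) (r s : K)
    (hd : ∀ i, ((th w a F).coeff i).natDegree ≤ dd) (gd : ∀ i, ((th w a G).coeff i).natDegree ≤ dd)
    (hF : Irreducible (th w a F - C (C r))) (hG : Irreducible (th w a G - C (C s)))
    (hne : C (C ((tc w G : ℤ) : K)) * (th w a F - C (C r)) ≠ C (C ((tc w F : ℤ) : K)) * (th w a G - C (C s))) :
    Nat.card {y : K × K // ev (RingHom.id K) y (th w a F - C (C r)) = 0 ∧
      ev (RingHom.id K) y (th w a G - C (C s)) = 0} ≤ (F.totalDegree + G.totalDegree) * dd * F.totalDegree := by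
  obtain ⟨h1, h2⟩ := monic_form w a F h0 hc r
  obtain ⟨g1, g2⟩ := monic_form w a G g0 gc s
  set f := C (C ((tc w F : ℤ) : K)⁻¹) * (th w a F - C (C r)) with hf
  set g := C (C ((tc w G : ℤ) : K)⁻¹) * (th w a G - C (C s)) with hg
  have hu : ∀ c : K, c ≠ 0 → IsUnit (C (C c) : K[X][X]) := fun c hc =>
    ((isUnit_iff_ne_zero.2 hc).map C).map C
  have hfirr : Irreducible f := by
    rw [hf, irreducible_isUnit_mul (hu _ (inv_ne_zero hc))]
    exact hF
  have hgirr : Irreducible g := by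
    rw [hg, irreducible_isUnit_mul (hu _ (inv_ne_zero gc))]
    exact hG
  have hfg : ¬ f ∣ g := by
    intro hdvd
    have h3 := eq_of_monic_of_associated h1 g1 (hfirr.associated_of_dvd hgirr hdvd)
    apply hne
    have e1 : C (C ((tc w F : ℤ) : K)) * f = th w a F - C (C r) := by
      rw [hf, ← mul_assoc, ← map_mul, ← map_mul, mul_inv_cancel₀ hc, map_one, map_one, one_mul]
    have e2 : C (C ((tc w G : ℤ) : K)) * g = th w a G - C (C s) := by
      rw [hg, ← mul_assoc, ← map_mul, ← map_mul, mul_inv_cancel₀ gc, map_one, map_one, one_mul]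
    rw [← e1, ← e2, h3]
    ring
  have hcoef : ∀ (H : MvPolynomial (Fin n) ℤ) (t c : K), (∀ i, ((th w a H).coeff i).natDegree ≤ dd) →
      ∀ i, ((C (C c) * (th w a H - C (C t))).coeff i).natDegree ≤ dd := by
    intro H t c hd i
    rw [coeff_C_mul, coeff_sub]
    refine (natDegree_C_mul_le _ _).trans ((natDegree_sub_le _ _).trans (max_le (hd i) ?_))
    rw [coeff_C]
    split_ifs
    · rw [natDegree_C]
      exact Nat.zero_le _
    · rw [natDegree_zero]
      exact Nat.zero_le _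
  have h4 := common (dd := dd) h1 (by omega) hfirr hfg (hcoef F r _ hd) (hcoef G s _ gd)
  rw [h2, g2] at h4
  refine le_trans (le_of_eq ?_) h4
  exact Nat.card_congr (Equiv.subtypeEquivRight fun y => by
    rw [ev_form w a F hc r y, ev_form w a G gc s y])

end

section
variable {m : ℕ}

/-- the ring of the parameters `v`, `z` -/
abbrev R2 (m : ℕ) : Type := MV m (MV m ℤ)

/-- the parameters `v` -/
noncomputable def rV (i : Fin m) : R2 m := MvPolynomial.X i

/-- the parameters `z` -/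
noncomputable def rZ (i : Fin m) : R2 m := MvPolynomial.C (MvPolynomial.X i)

/-- the generic plane curve -/
noncomputable def gen (w : Fin (m + 2) → ℤ) (H : MvPolynomial (Fin (m + 2)) ℤ) : (R2 m)[X][X] :=
  th w (aa rV rZ) H

/-- the specialisation -/
noncomputable def spz {K : Type} [CommRing K] (v z : Fin m → K) : R2 m →+* K :=
  MvPolynomial.eval₂Hom (MvPolynomial.eval₂Hom (Int.castRingHom K) z) v

theorem gen_map {K : Type} [CommRing K] (v z : Fin m → K) (w : Fin (m + 2) → ℤ)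
    (H : MvPolynomial (Fin (m + 2)) ℤ) : (gen w H).map (mapRingHom (spz v z)) = th w (aa v z) H := by
  rw [gen, th_map, aa_map]
  have e1 : (fun i => spz v z (rV i)) = v := by
    funext i
    rw [spz, rV, MvPolynomial.coe_eval₂Hom, MvPolynomial.eval₂_X]
  have e2 : (fun i => spz v z (rZ i)) = z := by
    funext i
    rw [spz, rZ, MvPolynomial.coe_eval₂Hom, MvPolynomial.eval₂_C, MvPolynomial.coe_eval₂Hom, MvPolynomial.eval₂_X]
  rw [e1, e2]

theorem spz_int {K : Type} [CommRing K] (v : Fin m → ℤ) (z : Fin m → K) (e : R2 m) :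
    spz (fun i => (v i : K)) z e = MvPolynomial.eval z (MvPolynomial.map (Int.castRingHom K)
      (MvPolynomial.eval (fun i => (v i : MV m ℤ)) e)) := by
  have h1 : spz (fun i => (v i : K)) z =
      (MvPolynomial.eval₂Hom (Int.castRingHom K) z).comp
        (MvPolynomial.eval (fun i => (v i : MV m ℤ))) := by
    apply MvPolynomial.ringHom_ext
    · intro q
      rw [spz, MvPolynomial.coe_eval₂Hom, MvPolynomial.eval₂_C, RingHom.comp_apply, MvPolynomial.eval_C]
    · intro i
      rw [spz, MvPolynomial.coe_eval₂Hom, MvPolynomial.eval₂_X, RingHom.comp_apply, MvPolynomial.eval_X,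
        map_intCast]
  rw [h1, RingHom.comp_apply, MvPolynomial.eval_map, MvPolynomial.coe_eval₂Hom]

theorem gen_deg (w : Fin (m + 2) → ℤ) (H : MvPolynomial (Fin (m + 2)) ℤ) : ∃ dd : ℕ,
    ∀ (K : Type) [Field K] (v z : Fin m → K) (i : ℕ), ((th w (aa v z) H).coeff i).natDegree ≤ dd := by
  classical
  refine ⟨(gen w H).support.sup fun i => ((gen w H).coeff i).natDegree, fun K _ v z i => ?_⟩
  rw [← gen_map v z w H, coeff_map]
  refine natDegree_map_le.trans ?_
  by_cases hi : i ∈ (gen w H).support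
  · exact Finset.le_sup (f := fun i => ((gen w H).coeff i).natDegree) hi
  · rw [notMem_support_iff.1 hi, natDegree_zero]
    exact Nat.zero_le _

/-- a nonconstant polynomial is nonconstant on the generic plane -/
theorem gen_nonconst (w : Fin (m + 2) → ℤ) (hw : w 0 ≠ 0) (H : MvPolynomial (Fin (m + 2)) ℤ)
    (hH : ∀ k : ℤ, H ≠ MvPolynomial.C k) :
    ∃ a b : ℕ, (a, b) ≠ (0, 0) ∧ ((gen w H).coeff b).coeff a ≠ 0 := by
  classical
  by_contra hcon
  push Not at hcon
  obtain ⟨κ, hκ⟩ : ∃ κ, κ = ((gen w H).coeff 0).coeff 0 := ⟨_, rfl⟩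
  have h1 : gen w H = C (C κ) := by
    ext b a
    by_cases hab : (a, b) = (0, 0)
    · obtain ⟨rfl, rfl⟩ := Prod.mk.inj hab
      simp [hκ]
    · rw [hcon a b hab]
      rw [coeff_C]
      split_ifs with hb
      · rw [coeff_C, if_neg]
        rintro rfl
        exact hab (by rw [hb])
      · rw [coeff_zero]
  have hw' : ((w 0 : ℤ) : ℚ) ≠ 0 := by exact_mod_cast hw
  have h2 : ∀ (v z : Fin m → ℚ) (y : ℚ × ℚ), MvPolynomial.aeval (pt w v z y) H = spz v z κ := by
    intro v z y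
    rw [← th_pt, ← gen_map v z w H, h1, Polynomial.map_C, ev_C]
    simp
  have h3 : ∀ (z v : Fin m → ℚ), MvPolynomial.aeval (pt w v z (0, 0)) H =
      MvPolynomial.aeval (pt w v (fun _ => 0) (1, 0)) H → True := fun _ _ _ => trivial
  -- the values on the subspace `x_0 = x_1 = 0`
  have h4 : ∀ (c v : Fin m → ℚ), MvPolynomial.aeval (pt w 0 (c) (1, 0)) H =
      MvPolynomial.aeval (pt w 0 (fun i => c i - v i) (0, 0)) H := by
    intro c v
    have e1 : pt w 0 c ((1 : ℚ), (0 : ℚ)) = pt w v (fun i => c i - v i) (1, 0) := by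
      funext i
      refine fin_cases2 (P := fun i => pt w 0 c ((1 : ℚ), (0 : ℚ)) i = pt w v (fun i => c i - v i) (1, 0) i)
        ?_ ?_ ?_ i
      · rfl
      · rfl
      · intro i
        show c i + 0 * 1 + _ * 0 = c i - v i + v i * 1 + _ * 0
        ring
    have e2 : pt w 0 (fun i => c i - v i) ((0 : ℚ), (0 : ℚ)) = pt w v (fun i => c i - v i) (0, 0) := by
      funext i
      refine fin_cases2 (P := fun i => pt w 0 (fun i => c i - v i) ((0 : ℚ), (0 : ℚ)) i =
        pt w v (fun i => c i - v i) (0, 0) i) ?_ ?_ ?_ i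
      · rfl
      · rfl
      · intro i
        show c i - v i + 0 * 0 + _ * 0 = c i - v i + v i * 0 + _ * 0
        ring
    rw [e1, e2, h2, h2]
  have h5 : ∀ u : Fin m → ℚ, MvPolynomial.aeval (pt w 0 u (0, 0)) H =
      MvPolynomial.aeval (pt w 0 (fun _ => 0) (1, 0)) H := by
    intro u
    have := h4 (fun _ => 0) (fun i => -u i)
    rw [this]
    congr 2
    congr 1
    funext i
    ring
  have h6 : ∀ x : Fin (m + 2) → ℚ, MvPolynomial.aeval x H =
      MvPolynomial.aeval (pt w 0 (fun _ => 0) ((1 : ℚ), (0 : ℚ))) H := by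
    intro x
    obtain ⟨s, hs⟩ := (coE w hw' (fun _ => (0 : ℚ))).surjective x
    have e1 : pt w (fun _ => (0 : ℚ)) s.1 s.2 = x := hs
    rw [← e1, h2, ← h5 s.1]
    exact (h2 0 s.1 (0, 0)).symm
  apply hH (MvPolynomial.eval 0 H)
  apply MvPolynomial.funext
  intro x
  rw [MvPolynomial.eval_C]
  have h7 := h6 (fun i => (x i : ℚ))
  have h8 := h6 (fun _ => 0)
  rw [← h8] at h7
  have h9 : ∀ x : Fin (m + 2) → ℤ, MvPolynomial.aeval (fun i => (x i : ℚ)) H = ((MvPolynomial.eval x H : ℤ) : ℚ) := by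
    intro x
    have : ((MvPolynomial.eval x H : ℤ) : ℚ) = Int.castRingHom ℚ (MvPolynomial.eval x H) := rfl
    rw [this, MvPolynomial.aeval_def, MvPolynomial.eval, MvPolynomial.coe_eval₂Hom, MvPolynomial.hom_eval₂]
    congr 1
  rw [h9] at h7
  have h10 := h9 0
  simp only [Pi.zero_apply, Int.cast_zero] at h10
  rw [h10] at h7
  exact_mod_cast h7

end

end Pool.Agent.V7H14.BN
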