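import Pool.Agent.V7H14.BN.Member
import Pool.Agent.V7H14.GF.Alg2

set_option autoImplicit false
set_option linter.all false

/-! # The family of the plane sections of `F = T` -/

open Polynomial

namespace Pool.Agent.V7H14.BN

open Pool.Agent.R410.LW (ev ev_C ev_X ev_eq)
open Pool.Agent.V7H14.GF (fam irr_generic)

section
variable {m : ℕ}

/-- **the family of the plane sections** -/
theorem plane_family {F : MvPolynomial (Fin (m + 2)) ℤ}
    (hF : ∃ c₀ : ℂ, Irreducible (MvPolynomial.map (Int.castRingHom ℂ) F - MvPolynomial.C c₀))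
    (w : Fin (m + 2) → ℤ) (hw : w 0 ≠ 0) (hc : tc w F ≠ 0) {A : Type} [CommRing A] [IsDomain A] [CharZero A]
    (pT u : A) (pv pz : Fin m → A) (hu : ((tc w F : ℤ) : A) * u = 1)
    (hα : ∀ (K : Type) [Field K] [CharZero K] (r : K) (v z : Fin m → K), ∃ ψ : A →+* K, ψ pT = r ∧
      (∀ i, ψ (pv i) = v i) ∧ ∀ i, ψ (pz i) = z i) :
    ∃ D : A, D ≠ 0 ∧ ∃ W : ℝ, 0 ≤ W ∧ ∀ (K : Type) [Field K] [Finite K] (ψ : A →+* K), ψ D ≠ 0 →
      Irreducible (th w (aa (fun i => ψ (pv i)) (fun i => ψ (pz i))) F - C (C (ψ pT))) ∧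
      |(Nat.card {x : K × K // ev (RingHom.id K) x
        (th w (aa (fun i => ψ (pv i)) (fun i => ψ (pz i))) F - C (C (ψ pT))) = 0} : ℝ) -
        Nat.card K| ≤ W * √(Nat.card K : ℝ) := by
  classical
  obtain ⟨c₀, hF⟩ := hF
  have h0 := td_pos hF
  obtain ⟨f, hf⟩ : ∃ f : A[X][X], f = C (C u) * (th w (aa pv pz) F - C (C pT)) := ⟨_, rfl⟩
  have hmap : ∀ (K : Type) [CommRing K] (ψ : A →+* K), f.map (mapRingHom ψ) =
      C (C (ψ u)) * (th w (aa (fun i => ψ (pv i)) (fun i => ψ (pz i))) F - C (C (ψ pT))) := by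
    intro K _ ψ
    rw [hf, Polynomial.map_mul, Polynomial.map_sub, th_map, aa_map, Polynomial.map_C, Polynomial.map_C]
    simp
  have hunit : ∀ (K : Type) [CommRing K] (ψ : A →+* K), ((tc w F : ℤ) : K) * ψ u = 1 := by
    intro K _ ψ
    have e1 : ((tc w F : ℤ) : K) = ψ ((tc w F : ℤ) : A) := by
      rw [map_intCast]
    rw [e1, ← map_mul, hu, map_one]
  have hnd : (th w (aa pv pz) F - C (C pT)).natDegree ≤ F.totalDegree := by
    refine (natDegree_sub_le _ _).trans (max_le (th_nd _ _ _) ?_)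
    rw [natDegree_C]
    exact Nat.zero_le _
  have hco : (th w (aa pv pz) F - C (C pT)).coeff F.totalDegree = C ((tc w F : ℤ) : A) := by
    rw [coeff_sub, th_coeff, coeff_C_of_ne_zero (by omega), sub_zero]
  have hfco : f.coeff F.totalDegree = 1 := by
    rw [hf, coeff_C_mul, hco, ← map_mul, mul_comm, hu, map_one]
  have hfnd : f.natDegree = F.totalDegree := by
    apply le_antisymm
    · rw [hf]
      exact (natDegree_C_mul_le _ _).trans hnd
    · apply le_natDegree_of_ne_zero
      rw [hfco]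
      exact one_ne_zero
  have hfm : f.Monic := by
    rw [Monic, leadingCoeff, hfnd, hfco]
  have hf0 : 0 < f.natDegree := by omega
  have hirrU : ∀ (K : Type) [Field K] (ψ : A →+* K), (Irreducible (f.map (mapRingHom ψ)) ↔
      Irreducible (th w (aa (fun i => ψ (pv i)) (fun i => ψ (pz i))) F - C (C (ψ pT)))) := by
    intro K _ ψ
    rw [hmap K ψ]
    apply irreducible_isUnit_mul
    have h1 : IsUnit (ψ u) := by
      rw [isUnit_iff_exists_inv]
      exact ⟨_, by rw [mul_comm]; exact hunit K ψ⟩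
    exact (h1.map C).map C
  -- a member
  obtain ⟨r, v, z, hm⟩ := exists_member hF w hw hc
  have hch : CharZero (AlgebraicClosure (FractionRing (BB m))) := by
    have : CharZero (FractionRing (BB m)) := inferInstance
    exact charZero_of_injective_algebraMap (algebraMap (FractionRing (BB m)) _).injective
  obtain ⟨ψ₀, hψT, hψv, hψz⟩ := hα (AlgebraicClosure (FractionRing (BB m))) r v z
  have h1 : Irreducible (f.map (mapRingHom ψ₀)) := by
    rw [hirrU]
    simp only [hψT, hψv, hψz]
    exact hm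
  have hinj : Function.Injective (algebraMap A (AlgebraicClosure (FractionRing A))) := by
    rw [IsScalarTower.algebraMap_eq A (FractionRing A) (AlgebraicClosure (FractionRing A))]
    exact (algebraMap (FractionRing A) (AlgebraicClosure (FractionRing A))).injective.comp
      (IsFractionRing.injective A (FractionRing A))
  have h2 := irr_generic (A := A) (K := AlgebraicClosure (FractionRing A)) hinj ψ₀ hfm hf0 h1
  rw [IsScalarTower.algebraMap_eq A (FractionRing A) (AlgebraicClosure (FractionRing A))] at h2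
  obtain ⟨D, hD, hDi, W, hW, hWk⟩ := fam (A := A) (k₀ := FractionRing A)
    (kb := AlgebraicClosure (FractionRing A)) hfm hf0 h2
  refine ⟨D, hD, W, hW, ?_⟩
  intro K _ _ ψ hψ
  refine ⟨(hirrU K ψ).1 (hDi K ψ hψ), ?_⟩
  have h3 := hWk K ψ hψ
  refine le_trans (le_of_eq ?_) h3
  congr 3
  norm_cast
  refine Nat.card_congr (Equiv.subtypeEquivRight fun x => ?_)
  have e1 : ev ψ x f = ev (RingHom.id K) x (f.map (mapRingHom ψ)) := by
    rw [ev_eq, ev_eq, mapRingHom_id, Polynomial.map_id]
  rw [e1, hmap, map_mul, ev_C, eval₂_C, RingHom.id_apply, mul_eq_zero]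
  constructor
  · exact fun h => Or.inr h
  · rintro (h | h)
    · exfalso
      have := hunit K ψ
      rw [h, mul_zero] at this
      exact zero_ne_one this
    · exact h

end

end Pool.Agent.V7H14.BN
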