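import Pool.Agent.V7H14.BN.Theta
import Pool.Agent.V7H14.BN.Bertini

set_option autoImplicit false
set_option linter.all false

/-! # A plane section with an absolutely irreducible translate -/

open Polynomial

namespace Pool.Agent.V7H14.BN

section
variable {R S : Type} [CommRing R] [CommRing S] {m : ℕ}

/-- the plane with the parameters `z`, `v` -/
noncomputable def aa (v z : Fin m → R) : Fin (m + 2) → R[X] :=
  Fin.cons 0 (Fin.cons X (fun i => C (z i) + C (v i) * X))

theorem aa_zero (v z : Fin m → R) : aa v z 0 = 0 := rfl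

theorem aa_one (v z : Fin m → R) : aa v z 1 = X := rfl

theorem aa_succ (v z : Fin m → R) (i : Fin m) : aa v z i.succ.succ = C (z i) + C (v i) * X := rfl

theorem fin_cases2 {P : Fin (m + 2) → Prop} (h0 : P 0) (h1 : P 1) (h2 : ∀ i : Fin m, P i.succ.succ) :
    ∀ i, P i := by
  intro i
  induction i using Fin.cases with
  | zero => exact h0
  | succ i =>
    induction i using Fin.cases with
    | zero => exact h1
    | succ i => exact h2 i

theorem aa_map (ψ : R →+* S) (v z : Fin m → R) :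
    (fun i => (aa v z i).map ψ) = aa (fun i => ψ (v i)) (fun i => ψ (z i)) := by
  funext i
  refine fin_cases2 (P := fun i => (aa v z i).map ψ = aa (fun i => ψ (v i)) (fun i => ψ (z i)) i) ?_ ?_ ?_ i
  · rw [aa_zero, aa_zero, Polynomial.map_zero]
  · rw [aa_one, aa_one, Polynomial.map_X]
  · intro i
    rw [aa_succ, aa_succ]
    simp

end

section
variable {m : ℕ}

/-- the generic plane through the origin direction -/
noncomputable def a0 (m : ℕ) : Fin (m + 2) → (BB m)[X] := aa (fun _ => 0) (fun i => MvPolynomial.X i)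

/-- the constants -/
noncomputable def cc (m : ℕ) : ℂ →+* (BB m)[X][X] :=
  (C : (BB m)[X] →+* (BB m)[X][X]).comp ((C : BB m →+* (BB m)[X]).comp (MvPolynomial.C : ℂ →+* BB m))

theorem cc_apply (r : ℂ) : cc m r = C (C (MvPolynomial.C r)) := rfl

/-- the substitution over the complex numbers -/
noncomputable def Om (w : Fin (m + 2) → ℤ) : MvPolynomial (Fin (m + 2)) ℂ →+* (BB m)[X][X] :=
  MvPolynomial.eval₂Hom (cc m) (fun i => C (a0 m i) + cc m (w i : ℂ) * X)

/-- its inverse -/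
noncomputable def Om' (w : Fin (m + 2) → ℤ) : (BB m)[X][X] →+* MvPolynomial (Fin (m + 2)) ℂ :=
  eval₂RingHom (eval₂RingHom (MvPolynomial.eval₂Hom MvPolynomial.C
    (fun i => MvPolynomial.X i.succ.succ - MvPolynomial.C ((w i.succ.succ : ℂ) * (w 0 : ℂ)⁻¹) * MvPolynomial.X 0))
    (MvPolynomial.X 1 - MvPolynomial.C ((w 1 : ℂ) * (w 0 : ℂ)⁻¹) * MvPolynomial.X 0))
    (MvPolynomial.C (w 0 : ℂ)⁻¹ * MvPolynomial.X 0)

theorem Om_C (w : Fin (m + 2) → ℤ) (r : ℂ) : Om w (MvPolynomial.C r) = cc m r := by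
  rw [Om, MvPolynomial.coe_eval₂Hom, MvPolynomial.eval₂_C]

theorem Om_X (w : Fin (m + 2) → ℤ) (i : Fin (m + 2)) :
    Om w (MvPolynomial.X i) = C (a0 m i) + cc m (w i : ℂ) * X := by
  rw [Om, MvPolynomial.coe_eval₂Hom, MvPolynomial.eval₂_X]

theorem Om'_cc (w : Fin (m + 2) → ℤ) (r : ℂ) : Om' w (cc m r) = MvPolynomial.C r := by
  rw [cc_apply, Om', coe_eval₂RingHom, eval₂_C, coe_eval₂RingHom, eval₂_C, MvPolynomial.coe_eval₂Hom,
    MvPolynomial.eval₂_C]

theorem Om'_Z (w : Fin (m + 2) → ℤ) (i : Fin m) : Om' w (C (C (MvPolynomial.X i))) =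
    MvPolynomial.X i.succ.succ - MvPolynomial.C ((w i.succ.succ : ℂ) * (w 0 : ℂ)⁻¹) * MvPolynomial.X 0 := by
  rw [Om', coe_eval₂RingHom, eval₂_C, coe_eval₂RingHom, eval₂_C, MvPolynomial.coe_eval₂Hom,
    MvPolynomial.eval₂_X]

theorem Om'_Y (w : Fin (m + 2) → ℤ) : Om' w (C X) =
    MvPolynomial.X 1 - MvPolynomial.C ((w 1 : ℂ) * (w 0 : ℂ)⁻¹) * MvPolynomial.X 0 := by
  rw [Om', coe_eval₂RingHom, eval₂_C, coe_eval₂RingHom, eval₂_X]

theorem Om'_X (w : Fin (m + 2) → ℤ) : Om' w X = MvPolynomial.C (w 0 : ℂ)⁻¹ * MvPolynomial.X 0 := by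
  rw [Om', coe_eval₂RingHom, eval₂_X]

theorem Om_Om' (w : Fin (m + 2) → ℤ) (hw : (w 0 : ℂ) ≠ 0) : (Om w).comp (Om' w) = RingHom.id _ := by
  have h0 : Om w (MvPolynomial.C (w 0 : ℂ)⁻¹ * MvPolynomial.X 0) = X := by
    rw [map_mul, Om_C, Om_X, a0, aa_zero, map_zero, zero_add, ← mul_assoc, ← map_mul, inv_mul_cancel₀ hw, map_one,
      one_mul]
  have h1 : ∀ i : Fin (m + 2), Om w (MvPolynomial.X i - MvPolynomial.C ((w i : ℂ) * (w 0 : ℂ)⁻¹) * MvPolynomial.X 0) =
      C (a0 m i) := by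
    intro i
    rw [map_mul, mul_assoc, map_sub, map_mul, h0, Om_X, Om_C]
    ring
  apply Polynomial.ringHom_ext'
  · apply Polynomial.ringHom_ext'
    · apply MvPolynomial.ringHom_ext
      · intro r
        show Om w (Om' w (cc m r)) = _
        rw [Om'_cc, Om_C]
        rfl
      · intro i
        show Om w (Om' w (C (C (MvPolynomial.X i)))) = _
        rw [Om'_Z, h1, a0, aa_succ]
        simp
    · show Om w (Om' w (C X)) = _
      rw [Om'_Y, h1, a0, aa_one]
      rfl
  · show Om w (Om' w X) = _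
    rw [Om'_X, h0]
    rfl

theorem Om'_Om (w : Fin (m + 2) → ℤ) (hw : (w 0 : ℂ) ≠ 0) : (Om' w).comp (Om w) = RingHom.id _ := by
  apply MvPolynomial.ringHom_ext
  · intro r
    show Om' w (Om w (MvPolynomial.C r)) = _
    rw [Om_C, Om'_cc]
    rfl
  · refine fin_cases2 ?_ ?_ ?_
    · show Om' w (Om w (MvPolynomial.X 0)) = _
      rw [Om_X, a0, aa_zero, map_zero, zero_add, map_mul, Om'_cc, Om'_X, ← mul_assoc, ← map_mul,
        mul_inv_cancel₀ hw, map_one, one_mul]
      rfl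
    · show Om' w (Om w (MvPolynomial.X 1)) = _
      rw [Om_X, a0, aa_one, map_add, map_mul, Om'_cc, Om'_X, Om'_Y, map_mul]
      show _ = MvPolynomial.X 1
      ring
    · intro i
      show Om' w (Om w (MvPolynomial.X i.succ.succ)) = _
      rw [Om_X, a0, aa_succ, map_zero, zero_mul, add_zero, map_add, map_mul, Om'_cc, Om'_X, Om'_Z, map_mul]
      show _ = MvPolynomial.X i.succ.succ
      ring

/-- the isomorphism -/
noncomputable def OmE (w : Fin (m + 2) → ℤ) (hw : (w 0 : ℂ) ≠ 0) :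
    MvPolynomial (Fin (m + 2)) ℂ ≃+* (BB m)[X][X] :=
  RingEquiv.ofRingHom (Om w) (Om' w) (Om_Om' w hw) (Om'_Om w hw)

theorem Om_map (w : Fin (m + 2) → ℤ) (F : MvPolynomial (Fin (m + 2)) ℤ) :
    Om w (MvPolynomial.map (Int.castRingHom ℂ) F) = th w (a0 m) F := by
  have h : (Om w).comp (MvPolynomial.map (Int.castRingHom ℂ)) = th w (a0 m) := by
    apply MvPolynomial.ringHom_ext
    · intro r
      simp [Om, th, sub]
    · intro i
      rw [RingHom.comp_apply, MvPolynomial.map_X, Om_X]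
      simp [th, sub]
  exact congrArg (fun g => g F) h

theorem irr_th {F : MvPolynomial (Fin (m + 2)) ℤ} {c₀ : ℂ}
    (h : Irreducible (MvPolynomial.map (Int.castRingHom ℂ) F - MvPolynomial.C c₀)) (w : Fin (m + 2) → ℤ)
    (hw : w 0 ≠ 0) : Irreducible (th w (a0 m) F - cc m c₀) := by
  have hw' : (w 0 : ℂ) ≠ 0 := by exact_mod_cast hw
  have h1 := (MulEquiv.irreducible_iff (OmE w hw').toMulEquiv).2 h
  have h2 : (OmE w hw').toMulEquiv (MvPolynomial.map (Int.castRingHom ℂ) F - MvPolynomial.C c₀) =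
      Om w (MvPolynomial.map (Int.castRingHom ℂ) F - MvPolynomial.C c₀) := rfl
  rw [h2, map_sub, Om_map, Om_C] at h1
  exact h1

theorem td_pos {F : MvPolynomial (Fin (m + 2)) ℤ} {c₀ : ℂ}
    (h : Irreducible (MvPolynomial.map (Int.castRingHom ℂ) F - MvPolynomial.C c₀)) : 0 < F.totalDegree := by
  rw [Nat.pos_iff_ne_zero]
  intro h0
  rw [MvPolynomial.totalDegree_eq_zero_iff_eq_C] at h0
  rw [h0, MvPolynomial.map_C, ← map_sub] at h
  by_cases h1 : (Int.castRingHom ℂ) (MvPolynomial.coeff 0 F) - c₀ = 0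
  · rw [h1, map_zero] at h
    exact h.ne_zero rfl
  · exact h.not_isUnit ((isUnit_iff_ne_zero.2 h1).map MvPolynomial.C)

/-- **a member of the family of plane sections which is absolutely irreducible** -/
theorem exists_member {F : MvPolynomial (Fin (m + 2)) ℤ} {c₀ : ℂ}
    (h : Irreducible (MvPolynomial.map (Int.castRingHom ℂ) F - MvPolynomial.C c₀)) (w : Fin (m + 2) → ℤ)
    (hw : w 0 ≠ 0) (hc : tc w F ≠ 0) :
    ∃ (r : AlgebraicClosure (FractionRing (BB m))) (v z : Fin m → AlgebraicClosure (FractionRing (BB m))),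
      Irreducible (th w (aa v z) F - C (C r)) := by
  have h0 := td_pos h
  have hcC : ((tc w F : ℤ) : ℂ) ≠ 0 := by exact_mod_cast hc
  have h1 := irr_th h w hw
  obtain ⟨H, hH⟩ : ∃ H : (BB m)[X][X], H = cc m ((tc w F : ℤ) : ℂ)⁻¹ * (th w (a0 m) F - cc m c₀) := ⟨_, rfl⟩
  have hunit : IsUnit (cc m ((tc w F : ℤ) : ℂ)⁻¹) := (isUnit_iff_ne_zero.2 (inv_ne_zero hcC)).map (cc m)
  have hHirr : Irreducible H := by
    rw [hH, irreducible_isUnit_mul hunit]
    exact h1
  have hnd : (th w (a0 m) F - cc m c₀).natDegree ≤ F.totalDegree := by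
    refine (natDegree_sub_le _ _).trans (max_le (th_nd _ _ _) ?_)
    rw [cc_apply, natDegree_C]
    exact Nat.zero_le _
  have hco : (th w (a0 m) F - cc m c₀).coeff F.totalDegree = C ((tc w F : ℤ) : BB m) := by
    rw [coeff_sub, th_coeff, cc_apply, coeff_C_of_ne_zero (by omega), sub_zero]
  have hHco : H.coeff F.totalDegree = 1 := by
    rw [hH, cc_apply, coeff_C_mul, hco, ← map_mul]
    have : (MvPolynomial.C ((tc w F : ℤ) : ℂ)⁻¹ * ((tc w F : ℤ) : BB m) : BB m) = 1 := by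
      have e : (((tc w F : ℤ) : BB m)) = MvPolynomial.C ((tc w F : ℤ) : ℂ) := by
        rw [map_intCast]
      rw [e, ← map_mul, inv_mul_cancel₀ hcC, map_one]
    rw [this, map_one]
  have hHnd' : H.natDegree ≤ F.totalDegree := by
    rw [hH, cc_apply]
    exact (natDegree_C_mul_le _ _).trans hnd
  have hHnd : H.natDegree = F.totalDegree := by
    apply le_antisymm hHnd'
    apply le_natDegree_of_ne_zero
    rw [hHco]
    exact one_ne_zero
  have hHm : H.Monic := by
    rw [Monic, leadingCoeff, hHnd, hHco]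
  obtain ⟨y₀, z₀, hb⟩ := bertini H hHm (by omega) hHirr
  set kb := AlgebraicClosure (FractionRing (BB m)) with hkb
  set j : BB m →+* kb := (algebraMap (FractionRing (BB m)) kb).comp
    (algebraMap (BB m) (FractionRing (BB m))) with hj
  refine ⟨j (MvPolynomial.C c₀), fun i => j (MvPolynomial.X i),
    fun i => j (MvPolynomial.C (z₀ i) - MvPolynomial.X i * MvPolynomial.C y₀), ?_⟩
  have hph : ∀ r : ℂ, phi y₀ z₀ (C (MvPolynomial.C r)) = C (MvPolynomial.C r) := by
    intro r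
    rw [phi, coe_eval₂RingHom, eval₂_C, MvPolynomial.coe_eval₂Hom, MvPolynomial.eval₂_C]
    rfl
  have ha : (fun i => phi y₀ z₀ (a0 m i)) = aa (fun i => MvPolynomial.X i)
      (fun i => MvPolynomial.C (z₀ i) - MvPolynomial.X i * MvPolynomial.C y₀) := by
    funext i
    refine fin_cases2 (P := fun i => phi y₀ z₀ (a0 m i) = aa (fun i => MvPolynomial.X i)
      (fun i => MvPolynomial.C (z₀ i) - MvPolynomial.X i * MvPolynomial.C y₀) i) ?_ ?_ ?_ i
    · rw [a0, aa_zero, aa_zero, map_zero]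
    · rw [a0, aa_one, aa_one, phi, coe_eval₂RingHom, eval₂_X]
    · intro i
      rw [a0, aa_succ, aa_succ, map_zero, zero_mul, add_zero, phi, coe_eval₂RingHom, eval₂_C,
        MvPolynomial.coe_eval₂Hom, MvPolynomial.eval₂_X, map_sub, map_mul]
      ring
  have e1 : (H.map (phi y₀ z₀)).map (mapRingHom j) =
      C (C (j (MvPolynomial.C ((tc w F : ℤ) : ℂ)⁻¹))) * (th w (aa (fun i => j (MvPolynomial.X i))
        (fun i => j (MvPolynomial.C (z₀ i) - MvPolynomial.X i * MvPolynomial.C y₀))) F -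
        C (C (j (MvPolynomial.C c₀)))) := by
    rw [hH, Polynomial.map_mul, Polynomial.map_sub, th_map', ha, cc_apply, cc_apply, Polynomial.map_C,
      Polynomial.map_C, hph, hph, Polynomial.map_mul, Polynomial.map_sub, th_map, aa_map, Polynomial.map_C,
      Polynomial.map_C]
    simp
  rw [e1] at hb
  refine (irreducible_isUnit_mul ?_).1 hb
  have h5 : IsUnit (((tc w F : ℤ) : ℂ)⁻¹) := isUnit_iff_ne_zero.2 (inv_ne_zero hcC)
  exact (((h5.map (MvPolynomial.C : ℂ →+* BB m)).map j).map C).map C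

end

end Pool.Agent.V7H14.BN
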