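import Pool.Agent.V7H14.BN.Fam

set_option autoImplicit false
set_option linter.all false

/-! # The choice of the direction of the planes -/

open Polynomial

namespace Pool.Agent.V7H14.BN

open Pool.Agent.R410.LW (ev ev_C ev_X ev_eq)

section
variable (N : ℤ) (m : ℕ)

/-- `ℤ[1 / N]` -/
def La : Type := Localization.Away N

noncomputable instance : CommRing (La N) := inferInstanceAs (CommRing (Localization.Away N))

instance : IsLocalization.Away N (La N) := by
  have h : IsLocalization.Away N (Localization.Away N) := inferInstance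
  unfold IsLocalization.Away at h ⊢
  refine cast ?_ h
  congr 1
  exact Subsingleton.elim _ _

/-- polynomials in several variables over a commutative ring -/
abbrev MV (R : Type) [CommRing R] : Type := MvPolynomial (Fin m) R

/-- the ring with the parameters `z` and `T` -/
abbrev A1 : Type := MV m (La N)[X]

/-- the ring with the parameters `v`, `z` and `T` -/
abbrev A2 : Type := MV m (A1 N m)

/-- the parameter `T` -/
noncomputable def pT : A2 N m := MvPolynomial.C (MvPolynomial.C X)

/-- the parameters `z` -/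
noncomputable def pz (i : Fin m) : A2 N m := MvPolynomial.C (MvPolynomial.X i)

/-- the parameters `v` -/
noncomputable def pv (i : Fin m) : A2 N m := MvPolynomial.X i

end

section
variable {N : ℤ} {m : ℕ}

theorem la_domain (hN : N ≠ 0) : IsDomain (La N) :=
  IsLocalization.isDomain_of_le_nonZeroDivisors (La N) (M := Submonoid.powers N)
    (powers_le_nonZeroDivisors_of_noZeroDivisors hN)

theorem la_inj (hN : N ≠ 0) : Function.Injective (algebraMap ℤ (La N)) :=
  IsLocalization.injective (M := Submonoid.powers N) _ (powers_le_nonZeroDivisors_of_noZeroDivisors hN)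

theorem la_char (hN : N ≠ 0) : CharZero (La N) := by
  constructor
  intro a b h
  have h1 : algebraMap ℤ (La N) (a : ℤ) = algebraMap ℤ (La N) (b : ℤ) := by
    rw [map_natCast, map_natCast]
    exact h
  exact_mod_cast la_inj hN h1

/-- the homomorphism to a field in which `N` is invertible -/
noncomputable def laK (K : Type) [Field K] (h : ((N : ℤ) : K) ≠ 0) : La N →+* K :=
  IsLocalization.Away.lift N (g := Int.castRingHom K) (isUnit_iff_ne_zero.2 h)

/-- an inverse -/
theorem exists_inv {t : ℤ} (h : t ∣ N) : ∃ u : La N, ((t : ℤ) : La N) * u = 1 := by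
  obtain ⟨s, hs⟩ := h
  obtain ⟨b, hb⟩ := (IsLocalization.Away.algebraMap_isUnit (R := ℤ) (S := La N) N).exists_right_inv
  refine ⟨(s : La N) * b, ?_⟩
  rw [← mul_assoc, ← Int.cast_mul, ← hs]
  rw [← hb, eq_intCast]

/-- the specialisation of `z` and `T` -/
noncomputable def sp1 (K : Type) [Field K] (h : ((N : ℤ) : K) ≠ 0) (r : K) (z : Fin m → K) : A1 N m →+* K :=
  MvPolynomial.eval₂Hom (eval₂RingHom (laK K h) r) z

/-- the specialisation -/
noncomputable def sp2 (K : Type) [Field K] (h : ((N : ℤ) : K) ≠ 0) (r : K) (v z : Fin m → K) : A2 N m →+* K :=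
  MvPolynomial.eval₂Hom (sp1 K h r z) v

theorem sp2_T {K : Type} [Field K] (h : ((N : ℤ) : K) ≠ 0) (r : K) (v z : Fin m → K) :
    sp2 K h r v z (pT N m) = r := by
  rw [sp2, pT, MvPolynomial.coe_eval₂Hom, MvPolynomial.eval₂_C, sp1, MvPolynomial.coe_eval₂Hom,
    MvPolynomial.eval₂_C, coe_eval₂RingHom, eval₂_X]

theorem sp2_z {K : Type} [Field K] (h : ((N : ℤ) : K) ≠ 0) (r : K) (v z : Fin m → K) (i : Fin m) :
    sp2 K h r v z (pz N m i) = z i := by
  rw [sp2, pz, MvPolynomial.coe_eval₂Hom, MvPolynomial.eval₂_C, sp1, MvPolynomial.coe_eval₂Hom,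
    MvPolynomial.eval₂_X]

theorem sp2_v {K : Type} [Field K] (h : ((N : ℤ) : K) ≠ 0) (r : K) (v z : Fin m → K) (i : Fin m) :
    sp2 K h r v z (pv N m i) = v i := by
  rw [sp2, pv, MvPolynomial.coe_eval₂Hom, MvPolynomial.eval₂_X]

/-- specialisation at integers `v` first -/
theorem sp2_int {K : Type} [Field K] (h : ((N : ℤ) : K) ≠ 0) (r : K) (v : Fin m → ℤ) (z : Fin m → K)
    (D : A2 N m) : sp2 K h r (fun i => (v i : K)) z D =
      MvPolynomial.eval z (MvPolynomial.map (eval₂RingHom (laK K h) r)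
        (MvPolynomial.eval (fun i => (v i : A1 N m)) D)) := by
  have h1 : sp2 K h r (fun i => (v i : K)) z =
      (sp1 K h r z).comp (MvPolynomial.eval (fun i => (v i : A1 N m))) := by
    apply MvPolynomial.ringHom_ext
    · intro q
      rw [sp2, MvPolynomial.coe_eval₂Hom, MvPolynomial.eval₂_C, RingHom.comp_apply, MvPolynomial.eval_C]
    · intro i
      rw [sp2, MvPolynomial.coe_eval₂Hom, MvPolynomial.eval₂_X, RingHom.comp_apply, MvPolynomial.eval_X,
        map_intCast]
  rw [h1, RingHom.comp_apply, MvPolynomial.eval_map, sp1, MvPolynomial.coe_eval₂Hom]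

theorem exists_int_point {R : Type} [CommRing R] [IsDomain R] [CharZero R] {m : ℕ} {ι : Type} [Fintype ι]
    (D : ι → MvPolynomial (Fin m) R) (hD : ∀ j, D j ≠ 0) :
    ∃ v : Fin m → ℤ, ∀ j, MvPolynomial.eval (fun i => (v i : R)) (D j) ≠ 0 := by
  classical
  by_contra hcon
  push Not at hcon
  have h1 : ∏ j, D j ≠ 0 := Finset.prod_ne_zero_iff.2 fun j _ => hD j
  apply h1
  apply MvPolynomial.funext_set (fun _ => Set.range (Int.cast : ℤ → R))
    (fun _ => Set.infinite_range_of_injective Int.cast_injective)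
  intro x hx
  have h2 : ∀ i, ∃ a : ℤ, (a : R) = x i := fun i => hx i (Set.mem_univ i)
  choose v hv using h2
  obtain ⟨j, hj⟩ := hcon v
  have h3 : (fun i => (v i : R)) = x := funext hv
  rw [h3] at hj
  rw [map_zero, map_prod]
  exact Finset.prod_eq_zero (Finset.mem_univ j) hj

/-- the exceptional polynomial -/
theorem exists_mu (hN : N ≠ 0) (D : A1 N m) (hD : D ≠ 0) : ∃ μ : ℤ[X], μ ≠ 0 ∧
    ∀ (K : Type) [Field K] (h : ((N : ℤ) : K) ≠ 0) (r : K), aeval r μ ≠ 0 →
      MvPolynomial.map (eval₂RingHom (laK K h) r) D ≠ 0 := by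
  classical
  obtain ⟨β, hβ⟩ : ∃ β, MvPolynomial.coeff β D ≠ 0 := by
    by_contra hcon
    push Not at hcon
    exact hD (MvPolynomial.ext _ _ (by simpa using hcon))
  obtain ⟨b, hb, hbq⟩ := IsLocalization.integerNormalization_spec (M := Submonoid.powers N)
    (S := La N) (MvPolynomial.coeff β D)
  refine ⟨IsLocalization.integerNormalization (Submonoid.powers N) (MvPolynomial.coeff β D), ?_, ?_⟩
  · rw [ne_eq, IsLocalization.integerNormalization_eq_zero_iff (powers_le_nonZeroDivisors_of_noZeroDivisors hN)]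
    exact hβ
  · intro K _ h r hr h0
    apply hr
    have h1 := congrArg (MvPolynomial.coeff β) h0
    rw [MvPolynomial.coeff_map, MvPolynomial.coeff_zero] at h1
    have h2 : aeval r (IsLocalization.integerNormalization (Submonoid.powers N) (MvPolynomial.coeff β D)) =
        eval₂ (laK K h) r ((IsLocalization.integerNormalization (Submonoid.powers N)
          (MvPolynomial.coeff β D)).map (algebraMap ℤ (La N))) := by
      rw [eval₂_map, aeval_def]
      congr 1
      refine RingHom.ext fun x => ?_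
      rw [eq_intCast, eq_intCast]
    have h3 : (IsLocalization.integerNormalization (Submonoid.powers N) (MvPolynomial.coeff β D)).map
        (algebraMap ℤ (La N)) = C (algebraMap ℤ (La N) b) * MvPolynomial.coeff β D := by
      ext i
      rw [hbq, coeff_smul, coeff_C_mul, Algebra.smul_def]
    rw [h2, h3, eval₂_mul]
    rw [coe_eval₂RingHom] at h1
    rw [h1, mul_zero]

/-- **the planes**: the direction, the exceptional values and the exceptional planes -/
theorem planes {m : ℕ} {ι κ : Type} [Fintype ι] [Fintype κ] (F : ι → MvPolynomial (Fin (m + 2)) ℤ)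
    (hF : ∀ j, ∃ c₀ : ℂ, Irreducible (MvPolynomial.map (Int.castRingHom ℂ) (F j) - MvPolynomial.C c₀))
    (w : Fin (m + 2) → ℤ) (hw : w 0 ≠ 0) (hc : ∀ j, tc w (F j) ≠ 0)
    (E : κ → MV m (MV m ℤ)) (hE : ∀ k, E k ≠ 0) :
    ∃ v : Fin m → ℤ, (∀ k, MvPolynomial.eval (fun i => (v i : MV m ℤ)) (E k) ≠ 0) ∧
      ∃ B : ℕ, ∀ j, ∃ μ : ℤ[X], μ ≠ 0 ∧ ∃ (W : ℝ) (δ : ℕ), 0 ≤ W ∧ ∀ (p : ℕ) [Fact p.Prime], B < p →
        ∀ r : ZMod p, aeval r μ ≠ 0 → ∃ P : MvPolynomial (Fin m) (ZMod p), P ≠ 0 ∧ P.totalDegree ≤ δ ∧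
          ∀ z : Fin m → ZMod p, MvPolynomial.eval z P ≠ 0 →
            Irreducible (th w (aa (fun i => ((v i : ℤ) : ZMod p)) z) (F j) - C (C r)) ∧
            |(Nat.card {x : ZMod p × ZMod p // ev (RingHom.id (ZMod p)) x
              (th w (aa (fun i => ((v i : ℤ) : ZMod p)) z) (F j) - C (C r)) = 0} : ℝ) - p| ≤
                W * √(p : ℝ) := by
  classical
  obtain ⟨N, hNdef⟩ : ∃ N : ℤ, N = ∏ j, tc w (F j) := ⟨_, rfl⟩
  have hN : N ≠ 0 := by
    rw [hNdef]
    exact Finset.prod_ne_zero_iff.2 fun j _ => hc j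
  have hdvd : ∀ j, tc w (F j) ∣ N := fun j => by
    rw [hNdef]
    exact Finset.dvd_prod_of_mem _ (Finset.mem_univ j)
  have hdom : IsDomain (La N) := la_domain hN
  have hchar : CharZero (La N) := la_char hN
  have hinj : Function.Injective (algebraMap ℤ (La N)) := la_inj hN
  choose u hu using fun j => exists_inv (hdvd j)
  have hα : ∀ (K : Type) [Field K] [CharZero K] (r : K) (v z : Fin m → K), ∃ ψ : A2 N m →+* K,
      ψ (pT N m) = r ∧ (∀ i, ψ (pv N m i) = v i) ∧ ∀ i, ψ (pz N m i) = z i := by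
    intro K _ _ r v z
    have hNK : ((N : ℤ) : K) ≠ 0 := by exact_mod_cast hN
    exact ⟨sp2 K hNK r v z, sp2_T hNK r v z, fun i => sp2_v hNK r v z i, fun i => sp2_z hNK r v z i⟩
  choose D hD W hW hDW using fun j => plane_family (hF j) w hw (hc j) (A := A2 N m) (pT N m)
    (MvPolynomial.C (MvPolynomial.C (C (u j)))) (pv N m) (pz N m) (by
      have e1 : (((tc w (F j)) : ℤ) : A2 N m) = MvPolynomial.C (MvPolynomial.C (C (((tc w (F j)) : ℤ) : La N))) := by
        rw [map_intCast, map_intCast, map_intCast]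
      rw [e1, ← map_mul, ← map_mul, ← map_mul, hu, map_one, map_one, map_one]) hα
  -- the direction
  obtain ⟨e, he⟩ : ∃ e : MV m ℤ →+* A1 N m,
    e = MvPolynomial.map ((C : La N →+* (La N)[X]).comp (algebraMap ℤ (La N))) := ⟨_, rfl⟩
  have hei : Function.Injective e := by
    rw [he]
    exact MvPolynomial.map_injective _ (C_injective.comp hinj)
  obtain ⟨v, hv⟩ := exists_int_point (R := A1 N m) (ι := ι ⊕ κ)
    (Sum.elim D (fun k => MvPolynomial.map e (E k))) (by
      rintro (j | k)
      · exact hD j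
      · show MvPolynomial.map e (E k) ≠ 0
        rw [ne_eq, ← map_zero (MvPolynomial.map e)]
        exact fun h => hE k (MvPolynomial.map_injective e hei h))
  refine ⟨v, ?_, N.natAbs, ?_⟩
  · intro k h0
    apply hv (Sum.inr k)
    show MvPolynomial.eval (fun i => (v i : A1 N m)) (MvPolynomial.map e (E k)) = 0
    have h1 := congrArg e h0
    rw [map_zero] at h1
    rw [← h1, MvPolynomial.eval_map, MvPolynomial.eval, MvPolynomial.coe_eval₂Hom, MvPolynomial.hom_eval₂]
    congr 1
    funext i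
    simp
  · intro j
    obtain ⟨μ, hμ, hμK⟩ := exists_mu hN (MvPolynomial.eval (fun i => (v i : A1 N m)) (D j)) (hv (Sum.inl j))
    refine ⟨μ, hμ, W j, (MvPolynomial.eval (fun i => (v i : A1 N m)) (D j)).totalDegree, hW j, ?_⟩
    intro p _ hp r hr
    have hNp : ((N : ℤ) : ZMod p) ≠ 0 := by
      rw [ne_eq, ZMod.intCast_zmod_eq_zero_iff_dvd]
      intro hdvd
      have h3 := Int.natAbs_dvd_natAbs.2 hdvd
      rw [Int.natAbs_natCast] at h3
      have h4 := Nat.le_of_dvd (Int.natAbs_pos.2 hN) h3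
      omega
    refine ⟨MvPolynomial.map (eval₂RingHom (laK (ZMod p) hNp) r)
      (MvPolynomial.eval (fun i => (v i : A1 N m)) (D j)), hμK (ZMod p) hNp r hr,
      Finset.sup_mono (MvPolynomial.support_map_subset _ _), ?_⟩
    intro z hz
    rw [← sp2_int] at hz
    have h5 := hDW j (ZMod p) (sp2 (ZMod p) hNp r (fun i => (v i : ZMod p)) z) hz
    simp only [sp2_T, sp2_v, sp2_z, Nat.card_zmod] at h5
    exact h5

end

end Pool.Agent.V7H14.BN
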