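import Pool.Agent.R410.LW.Hom

set_option autoImplicit false
set_option linter.all false

/-! # The substitution `x_i ↦ a_i + w_i Y` -/

open Polynomial

namespace Pool.Agent.V7H14.BN

open Pool.Agent.R410.LW (ev ev_C ev_X ev_eq)

theorem prod_coeff {S ι : Type} [CommRing S] (s : Finset ι) (f : ι → S[X]) (d : ι → ℕ)
    (h : ∀ i ∈ s, (f i).natDegree ≤ d i) : (∏ i ∈ s, f i).natDegree ≤ ∑ i ∈ s, d i ∧
      (∏ i ∈ s, f i).coeff (∑ i ∈ s, d i) = ∏ i ∈ s, (f i).coeff (d i) := by
  classical
  induction s using Finset.induction_on with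
  | empty => simp
  | insert a s ha ih =>
    rw [Finset.prod_insert ha, Finset.sum_insert ha, Finset.prod_insert ha]
    obtain ⟨h1, h2⟩ := ih fun i hi => h i (Finset.mem_insert_of_mem hi)
    have h3 := h a (Finset.mem_insert_self _ _)
    refine ⟨natDegree_mul_le.trans (add_le_add h3 h1), ?_⟩
    rw [coeff_mul_add_eq_of_natDegree_le h3 h1, h2]

section
variable {S : Type} [CommRing S] {n : ℕ}

/-- the substitution `x_i ↦ a_i + b_i Y` -/
noncomputable def sub (a b : Fin n → S) : MvPolynomial (Fin n) ℤ →+* S[X] :=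
  MvPolynomial.eval₂Hom (Int.castRingHom _) (fun i => C (a i) + C (b i) * X)

theorem lin_nd (x y : S) : (C x + C y * X : S[X]).natDegree ≤ 1 := by
  refine (natDegree_add_le _ _).trans (max_le ?_ ?_)
  · rw [natDegree_C]
    exact Nat.zero_le _
  · exact (natDegree_C_mul_le _ _).trans natDegree_X_le

theorem sub_mono (a b : Fin n → S) (α : Fin n →₀ ℕ) (c : ℤ) :
    sub a b (MvPolynomial.monomial α c) = C (c : S) * ∏ i, (C (a i) + C (b i) * X) ^ α i := by
  unfold sub
  rw [MvPolynomial.coe_eval₂Hom, MvPolynomial.eval₂_monomial, Finsupp.prod_fintype _ _ (fun _ => pow_zero _)]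
  simp

theorem sub_mono_nd (a b : Fin n → S) (α : Fin n →₀ ℕ) (c : ℤ) :
    (sub a b (MvPolynomial.monomial α c)).natDegree ≤ α.degree ∧
      (sub a b (MvPolynomial.monomial α c)).coeff α.degree = (c : S) * ∏ i, b i ^ α i := by
  have h : ∀ i ∈ (Finset.univ : Finset (Fin n)), ((C (a i) + C (b i) * X : S[X]) ^ α i).natDegree ≤ α i := by
    intro i _
    refine natDegree_pow_le.trans ?_
    calc α i * _ ≤ α i * 1 := Nat.mul_le_mul_left _ (lin_nd _ _)
      _ = α i := mul_one _
  obtain ⟨h1, h2⟩ := prod_coeff Finset.univ (fun i => (C (a i) + C (b i) * X : S[X]) ^ α i) (fun i => α i) h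
  have h3 : α.degree = ∑ i, α i := by
    rw [Finsupp.degree_eq_sum]
  rw [sub_mono, h3]
  refine ⟨(natDegree_C_mul_le _ _).trans h1, ?_⟩
  rw [coeff_C_mul, h2]
  congr 1
  refine Finset.prod_congr rfl fun i _ => ?_
  have h4 := coeff_pow_of_natDegree_le (m := α i) (lin_nd (a i) (b i))
  rw [mul_one] at h4
  rw [h4, coeff_add, coeff_C_succ, coeff_C_mul, coeff_X_one, zero_add, mul_one]

theorem sub_sum (a b : Fin n → S) (F : MvPolynomial (Fin n) ℤ) :
    sub a b F = ∑ α ∈ F.support, sub a b (MvPolynomial.monomial α (MvPolynomial.coeff α F)) := by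
  conv_lhs => rw [F.as_sum]
  rw [map_sum]

theorem le_deg {F : MvPolynomial (Fin n) ℤ} {α : Fin n →₀ ℕ} (h : α ∈ F.support) :
    α.degree ≤ F.totalDegree := by
  have h1 := MvPolynomial.le_totalDegree h
  rw [Finsupp.degree_eq_sum]
  rwa [Finsupp.sum_fintype _ _ (fun _ => rfl)] at h1

theorem sub_nd (a b : Fin n → S) (F : MvPolynomial (Fin n) ℤ) : (sub a b F).natDegree ≤ F.totalDegree := by
  rw [sub_sum]
  exact natDegree_sum_le_of_forall_le _ _ fun α hα => (sub_mono_nd a b α _).1.trans (le_deg hα)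

/-- the coefficient of the highest power of `Y` -/
noncomputable def tc (w : Fin n → ℤ) (F : MvPolynomial (Fin n) ℤ) : ℤ :=
  MvPolynomial.eval w (MvPolynomial.homogeneousComponent F.totalDegree F)

theorem sub_coeff (a : Fin n → S) (w : Fin n → ℤ) (F : MvPolynomial (Fin n) ℤ) :
    (sub a (fun i => (w i : S)) F).coeff F.totalDegree = (tc w F : S) := by
  classical
  rw [sub_sum, finset_sum_coeff, tc, MvPolynomial.homogeneousComponent_apply, map_sum, Finset.sum_filter]
  push_cast
  refine Finset.sum_congr rfl fun α hα => ?_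
  by_cases h : α.degree = F.totalDegree
  · rw [if_pos h, ← h, (sub_mono_nd a _ α _).2, MvPolynomial.eval_monomial,
      Finsupp.prod_fintype _ _ (fun _ => pow_zero _)]
    push_cast
    rfl
  · rw [if_neg h]
    apply coeff_eq_zero_of_natDegree_lt
    exact (sub_mono_nd a _ α _).1.trans_lt (lt_of_le_of_ne (le_deg hα) h)

end

theorem hc_ne {n : ℕ} {F : MvPolynomial (Fin n) ℤ} (hF : F ≠ 0) :
    MvPolynomial.homogeneousComponent F.totalDegree F ≠ 0 := by
  classical
  have h1 : F.support.Nonempty := MvPolynomial.support_nonempty.2 hF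
  obtain ⟨β, hβ, h2⟩ := Finset.exists_mem_eq_sup _ h1 (fun s => s.sum fun _ e => e)
  have h3 : β.degree = F.totalDegree := by
    rw [MvPolynomial.totalDegree, h2, Finsupp.degree_eq_sum, Finsupp.sum_fintype _ _ (fun _ => rfl)]
  intro h
  have h4 := congrArg (MvPolynomial.coeff β) h
  rw [MvPolynomial.coeff_homogeneousComponent, if_pos h3, MvPolynomial.coeff_zero] at h4
  exact MvPolynomial.mem_support_iff.1 hβ h4

/-- a direction in which all top forms are nonzero -/
theorem exists_w {ι : Type} [Fintype ι] {n : ℕ} (F : ι → MvPolynomial (Fin (n + 1)) ℤ) (hF : ∀ j, F j ≠ 0) :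
    ∃ w : Fin (n + 1) → ℤ, w 0 ≠ 0 ∧ ∀ j, tc w (F j) ≠ 0 := by
  classical
  have h1 : (MvPolynomial.X 0 * ∏ j, MvPolynomial.homogeneousComponent (F j).totalDegree (F j) :
      MvPolynomial (Fin (n + 1)) ℤ) ≠ 0 :=
    mul_ne_zero (MvPolynomial.X_ne_zero 0) (Finset.prod_ne_zero_iff.2 fun j _ => hc_ne (hF j))
  by_contra hcon
  push Not at hcon
  apply h1
  apply MvPolynomial.funext
  intro w
  rw [map_zero, map_mul, MvPolynomial.eval_X, map_prod]
  by_cases hw : w 0 = 0
  · rw [hw, zero_mul]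
  · obtain ⟨j, hj⟩ := hcon w hw
    rw [Finset.prod_eq_zero (Finset.mem_univ j) hj, mul_zero]

section
variable {R S : Type} [CommRing R] [CommRing S] {n : ℕ}

/-- the substitution `x_i ↦ a_i + w_i Y` with `a_i` in a polynomial ring -/
noncomputable def th (w : Fin n → ℤ) (a : Fin n → R[X]) : MvPolynomial (Fin n) ℤ →+* R[X][X] :=
  sub a (fun i => (w i : R[X]))

theorem th_map (ψ : R →+* S) (w : Fin n → ℤ) (a : Fin n → R[X]) (F : MvPolynomial (Fin n) ℤ) :
    (th w a F).map (mapRingHom ψ) = th w (fun i => (a i).map ψ) F := by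
  have h : (mapRingHom (mapRingHom ψ)).comp (th w a) = th w (fun i => (a i).map ψ) := by
    apply MvPolynomial.ringHom_ext
    · intro r
      simp [th, sub]
    · intro i
      simp [th, sub]
  exact congrArg (fun g => g F) h

theorem th_map' (ψ : R[X] →+* S[X]) (w : Fin n → ℤ) (a : Fin n → R[X]) (F : MvPolynomial (Fin n) ℤ) :
    (th w a F).map ψ = th w (fun i => ψ (a i)) F := by
  have h : (mapRingHom ψ).comp (th w a) = th w (fun i => ψ (a i)) := by
    apply MvPolynomial.ringHom_ext
    · intro r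
      simp [th, sub]
    · intro i
      simp [th, sub]
  exact congrArg (fun g => g F) h

theorem th_ev {S : Type} [Field S] (ψ : R →+* S) (w : Fin n → ℤ) (a : Fin n → R[X]) (F : MvPolynomial (Fin n) ℤ)
    (z : S × S) :
    ev ψ z (th w a F) = MvPolynomial.aeval (fun i => (a i).eval₂ ψ z.1 + w i * z.2) F := by
  have h : (ev ψ z).comp (th w a) =
      MvPolynomial.eval₂Hom (Int.castRingHom S) (fun i => (a i).eval₂ ψ z.1 + w i * z.2) := by
    apply MvPolynomial.ringHom_ext
    · intro r
      simp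
    · intro i
      have e := map_intCast (eval₂RingHom ψ z.1) (w i)
      have e2 := map_intCast (eval₂RingHom (eval₂RingHom ψ z.1) z.2) (w i)
      rw [coe_eval₂RingHom] at e e2
      simp [th, sub, ev, e, e2]
  exact congrArg (fun g => g F) h

theorem th_nd (w : Fin n → ℤ) (a : Fin n → R[X]) (F : MvPolynomial (Fin n) ℤ) :
    (th w a F).natDegree ≤ F.totalDegree := sub_nd _ _ _

theorem th_coeff (w : Fin n → ℤ) (a : Fin n → R[X]) (F : MvPolynomial (Fin n) ℤ) :
    (th w a F).coeff F.totalDegree = C ((tc w F : ℤ) : R) := by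
  have h : (th w a F).coeff F.totalDegree = ((tc w F : ℤ) : R[X]) := sub_coeff a w F
  rw [h, map_intCast]

end

end Pool.Agent.V7H14.BN
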